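import Pool.Agent.Lib_MP_a95293_te.SmallH
import Pool.Agent.Lib_MP_a95293_tn.TopN

/-!
# Theorem Q for n-tuples, with all admissible tuples of height at most `exp ((log X) ^ B)`
-/

set_option autoImplicit false

namespace Pool.MP_a95293_nt.TE

open Finset Pool.MP_a95293_nt.RC Pool.MP_a95293_nt.PQ Pool.MP_a95293_nt.TN

/-- the tuples -/
def TplE (n B X : ℕ) : Set (Fin n → ℤ) :=
  {x | Adm x ∧ radZ (∏ j, x j) ≤ X ∧ (htn x : ℝ) ≤ Real.exp (Real.exp (Real.log X ^ B)) ∧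
    (4 ≤ n → Real.exp (Real.log X ^ B) < htn x → ∀ i j, i ≠ j → IsCoprime (x i) (x j))}

theorem tplE_finite (n B X : ℕ) : (TplE n B X).Finite := by
  set N : ℕ := ⌊Real.exp (Real.exp (Real.log X ^ B))⌋₊ with hN
  refine (Set.finite_Icc (fun _ : Fin n => -(N : ℤ)) (fun _ => (N : ℤ))).subset ?_
  intro x hx
  have h1 : htn x ≤ N := Nat.le_floor hx.2.2.1
  have h2 : ∀ i, (x i).natAbs ≤ N := fun i => (Finset.le_sup (f := fun i => (x i).natAbs) (mem_univ i)).trans h1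
  rw [Set.mem_Icc, Pi.le_def, Pi.le_def]
  constructor
  · intro i
    have := h2 i
    omega
  · intro i
    have := h2 i
    omega

theorem abs_le_htn {n : ℕ} (x : Fin n → ℤ) (i : Fin n) : |(x i : ℝ)| ≤ (htn x : ℝ) := by
  have h1 : (x i).natAbs ≤ htn x := Finset.le_sup (f := fun j => (x j).natAbs) (mem_univ i)
  rw [← Int.cast_abs, ← Nat.cast_natAbs]
  exact_mod_cast h1

theorem tplE_cadm {n B X : ℕ} {x : Fin n → ℤ} (hx : x ∈ TplE n B X) (hc : ∀ i j, i ≠ j → IsCoprime (x i) (x j)) :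
    CAdm (Real.exp (Real.exp (Real.log X ^ B))) x ∧ radZ (∏ j, x j) ≤ X :=
  ⟨⟨hx.1, hc, fun i => (abs_le_htn x i).trans hx.2.2.1⟩, hx.2.1⟩

/-- **Theorem Q.** -/
theorem topE (n B : ℕ) (hn : 3 ≤ n) :
    (∃ δ : ℝ, 0 < δ ∧ ∃ X₀ : ℕ, ∀ X : ℕ, X₀ ≤ X → (TplE n B X).Finite ∧ ((TplE n B X).ncard : ℝ) ≤ (X : ℝ) ^ (1 - δ)) ∧
    (∀ ε : ℝ, 0 < ε → ∃ X₀ : ℕ, ∀ X : ℕ, X₀ ≤ X →
      (({x | x ∈ TplE n B X ∧ (∀ i j, i ≠ j → IsCoprime (x i) (x j)) ∧ ¬ Shape ((X : ℝ) ^ ε) x} : Set (Fin n → ℤ)).ncard : ℝ) ≤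
        (X : ℝ) ^ (1 - ε / (4 * n))) ∧
    ∀ η : ℝ, 0 < η → ∃ ε : ℝ, 0 < ε ∧ ∃ X₀ : ℕ, ∀ X : ℕ, X₀ ≤ X →
      (({x | x ∈ TplE n B X ∧ (∀ i j, i ≠ j → IsCoprime (x i) (x j)) ∧ Shape ((X : ℝ) ^ ε) x} : Set (Fin n → ℤ)).ncard : ℝ) ≤
        (X : ℝ) ^ (1 - 1 / (n : ℝ) + η) := by
  classical
  have hn2 : 2 ≤ n := by omega
  refine ⟨?_, fun ε hε => ?_, fun η hη => ?_⟩
  · obtain ⟨δ₁, hδ₁, X₁, hX₁⟩ := totalN n B hn2
    obtain ⟨δ₂, hδ₂, X₂, hX₂⟩ := smallH n B hn2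
    set δ := min δ₁ δ₂ / 2 with hδ
    have hδ0 : 0 < δ := by
      have : 0 < min δ₁ δ₂ := lt_min hδ₁ hδ₂
      positivity
    have hδa : 2 * δ ≤ δ₁ := by
      rw [hδ]
      linarith [min_le_left δ₁ δ₂]
    have hδb : 2 * δ ≤ δ₂ := by
      rw [hδ]
      linarith [min_le_right δ₁ δ₂]
    have e1 : ∀ᶠ x : ℝ in Filter.atTop, (2 : ℝ) ≤ x ^ δ := (tendsto_rpow_atTop hδ0).eventually_ge_atTop _
    obtain ⟨X₃, hX₃⟩ := Filter.eventually_atTop.1 (tendsto_natCast_atTop_atTop.eventually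
      (e1.and (Filter.eventually_ge_atTop (1 : ℝ))))
    refine ⟨δ, hδ0, max X₁ (max X₂ X₃), fun X hX => ⟨tplE_finite n B X, ?_⟩⟩
    have g1 : X₁ ≤ X := (le_max_left _ _).trans hX
    have g2 : X₂ ≤ X := ((le_max_left _ _).trans (le_max_right _ _)).trans hX
    obtain ⟨g3, hX1⟩ := hX₃ X (((le_max_right _ _).trans (le_max_right _ _)).trans hX)
    have hX0 : (0 : ℝ) < X := by linarith
    rw [Set.ncard_eq_toFinset_card _ (tplE_finite n B X)]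
    set Z := (tplE_finite n B X).toFinset with hZ
    set Z₁ := Z.filter fun x => ∀ i j, i ≠ j → IsCoprime (x i) (x j) with hZ₁
    set Z₂ := Z.filter fun x => ¬ ∀ i j, i ≠ j → IsCoprime (x i) (x j) with hZ₂
    have hsplit : Z₁.card + Z₂.card = Z.card := card_filter_add_card_filter_not _
    have hb1 : (Z₁.card : ℝ) ≤ (X : ℝ) ^ (1 - δ₁) := by
      apply hX₁ X g1
      intro x hx
      obtain ⟨hx1, hx2⟩ := mem_filter.1 hx
      rw [hZ, Set.Finite.mem_toFinset] at hx1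
      exact tplE_cadm hx1 hx2
    have hb2 : (Z₂.card : ℝ) ≤ (X : ℝ) ^ (1 - δ₂) := by
      apply hX₂ X g2
      intro x hx
      obtain ⟨hx1, hx2⟩ := mem_filter.1 hx
      rw [hZ, Set.Finite.mem_toFinset] at hx1
      have hn4 : 4 ≤ n := by
        by_contra h
        have h3 : n = 3 := by omega
        subst h3
        exact hx2 (adm_cop3 hx1.1)
      refine ⟨hx1.1, fun i => (abs_le_htn x i).trans ?_, hx1.2.1⟩
      by_contra h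
      exact hx2 (hx1.2.2.2 hn4 (not_le.1 h))
    have f1 : (X : ℝ) ^ (1 - δ₁) ≤ (X : ℝ) ^ (1 - 2 * δ) := Real.rpow_le_rpow_of_exponent_le hX1 (by linarith)
    have f2 : (X : ℝ) ^ (1 - δ₂) ≤ (X : ℝ) ^ (1 - 2 * δ) := Real.rpow_le_rpow_of_exponent_le hX1 (by linarith)
    have hZc : (Z.card : ℝ) = Z₁.card + Z₂.card := by exact_mod_cast hsplit.symm
    calc (Z.card : ℝ) = Z₁.card + Z₂.card := hZc
      _ ≤ 2 * (X : ℝ) ^ (1 - 2 * δ) := by linarith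
      _ ≤ (X : ℝ) ^ δ * (X : ℝ) ^ (1 - 2 * δ) := mul_le_mul_of_nonneg_right g3 (by positivity)
      _ = (X : ℝ) ^ (1 - δ) := by
          rw [← Real.rpow_add hX0]
          congr 1
          ring
  · obtain ⟨X₁, hX₁⟩ := structN n B hn2 hε
    refine ⟨X₁, fun X hX => ?_⟩
    have hfin : ({x | x ∈ TplE n B X ∧ (∀ i j, i ≠ j → IsCoprime (x i) (x j)) ∧ ¬ Shape ((X : ℝ) ^ ε) x} : Set (Fin n → ℤ)).Finite :=
      (tplE_finite n B X).subset fun _ hx => hx.1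
    rw [Set.ncard_eq_toFinset_card _ hfin]
    apply hX₁ X hX
    intro x hx
    rw [Set.Finite.mem_toFinset] at hx
    exact ⟨(tplE_cadm hx.1 hx.2.1).1, (tplE_cadm hx.1 hx.2.1).2, hx.2.2⟩
  · obtain ⟨ε, hε, X₁, hX₁⟩ := shapeN n B hn2 hη
    refine ⟨ε, hε, X₁, fun X hX => ?_⟩
    have hfin : ({x | x ∈ TplE n B X ∧ (∀ i j, i ≠ j → IsCoprime (x i) (x j)) ∧ Shape ((X : ℝ) ^ ε) x} : Set (Fin n → ℤ)).Finite :=
      (tplE_finite n B X).subset fun _ hx => hx.1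
    rw [Set.ncard_eq_toFinset_card _ hfin]
    apply hX₁ X hX
    intro x hx
    rw [Set.Finite.mem_toFinset] at hx
    exact ⟨(tplE_cadm hx.1 hx.2.1).1, (tplE_cadm hx.1 hx.2.1).2, hx.2.2⟩

end Pool.MP_a95293_nt.TE
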