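import Pool.Agent.Lib_MP_a95293_tn.TDefs

/-!
# Primitive tuples of S-units of bounded height: definitions
-/

set_option autoImplicit false

namespace Pool.MP_a95293_nt.TE

open Finset Pool.MP_a95293_nt.TN

/-- a primitive solution of `∑ b i x i = 0` in `S`-units, `|x i| ≤ 2 ^ Λ`, without vanishing proper subsum -/
def PSol {ι : Type} [Fintype ι] (S : Finset ℕ) (Λ : ℕ) (b x : ι → ℤ) : Prop :=
  (∀ i, x i ≠ 0) ∧ (∀ d : ℤ, (∀ i, d ∣ x i) → IsUnit d) ∧ (∀ i, (x i).natAbs.primeFactors ⊆ S) ∧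
  (∀ i, (x i).natAbs ≤ 2 ^ Λ) ∧ ∑ i, b i * x i = 0 ∧
  ∀ I : Finset ι, I.Nonempty → I ≠ univ → ∑ i ∈ I, b i * x i ≠ 0

/-- the bound for the number of primitive solutions with `k` terms -/
def PBd (k C : ℕ) : Prop := ∀ (ι : Type) [Fintype ι] [DecidableEq ι], Fintype.card ι = k → ∀ S : Finset ℕ, (∀ p ∈ S, p.Prime) →
  ∀ (Λ : ℕ) (b : ι → ℤ), (∀ i, b i ≠ 0) → ∀ Z : Finset (ι → ℤ), (∀ x ∈ Z, PSol S Λ b x) → Z.card ≤ Bd C S.card Λ

end Pool.MP_a95293_nt.TE
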