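import Pool.Agent.Lib_MP_a95293_tn.Sf
import Pool.Agent.Lib_MP_a95293_tn.USplit
import Pool.Agent.Lib_MP_a95293_te.PDef

/-!
# Minimal vanishing subsums of primitive solutions
-/

set_option autoImplicit false

namespace Pool.MP_a95293_nt.TE

open Finset Pool.MP_a95293_nt.TN

/-- Base. -/
theorem pbd_two : PBd 2 2 := by
  classical
  intro ι _ _ hι S hS Λ b hb Z hZ
  refine ubd_two ι hι S hS Λ b hb Z fun x hx => ?_
  obtain ⟨h1, h2, h3, h4, h5, h6⟩ := hZ x hx
  refine ⟨h1, ?_, h3, h4, h5, h6⟩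
  obtain ⟨i₀, i₁, hne, huniv⟩ := Finset.card_eq_two.1 (Finset.card_univ.trans hι)
  have hall : ∀ i : ι, i = i₀ ∨ i = i₁ := by
    intro i
    have := Finset.mem_univ i
    rw [huniv] at this
    simpa using this
  have hc : IsCoprime (x i₀) (x i₁) := by
    rw [Int.isCoprime_iff_gcd_eq_one]
    have h7 := h2 ((Int.gcd (x i₀) (x i₁) : ℕ) : ℤ) (fun i => by
      rcases hall i with rfl | rfl
      · exact Int.gcd_dvd_left _ _
      · exact Int.gcd_dvd_right _ _)
    rw [Int.isUnit_iff] at h7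
    omega
  intro i j hij
  rcases hall i with rfl | rfl
  · rcases hall j with rfl | rfl
    · exact absurd rfl hij
    · exact hc
  · rcases hall j with rfl | rfl
    · exact hc.symm
    · exact absurd rfl hij

private theorem PSplit_gpos {ι : Type} [DecidableEq ι] {x : ι → ℤ} (hx : ∀ i, x i ≠ 0) {I : Finset ι} (hI : I.Nonempty) :
    0 < I.gcd x := by
  have h0 : 0 ≤ I.gcd x := Int.nonneg_of_normalize_eq_self Finset.normalize_gcd
  refine lt_of_le_of_ne h0 fun h => ?_
  obtain ⟨i, hi⟩ := hI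
  exact hx i ((Finset.gcd_eq_zero_iff.1 h.symm) i hi)

private theorem PSplit_gmul {ι : Type} [DecidableEq ι] {x : ι → ℤ} {I : Finset ι} {i : ι} (hi : i ∈ I) :
    I.gcd x * (x i / I.gcd x) = x i := Int.mul_ediv_cancel' (Finset.gcd_dvd hi)

/-- The primitive part of the restriction to a minimal set. -/
private theorem PSplit_restr {ι : Type} [Fintype ι] [DecidableEq ι] {S : Finset ℕ} {Λ : ℕ} {b x : ι → ℤ}
    (hx : PSol S Λ b x) (B : ι → ℤ) (I : Finset ι) (hI : I.Nonempty) (hsum : ∑ o ∈ I, B o * x o = 0)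
    (hmin : ∀ J ⊆ I, J.Nonempty → J ≠ I → ∑ o ∈ J, B o * x o ≠ 0) :
    PSol S Λ (fun o : {o // o ∈ I} => B o.1) (fun o : {o // o ∈ I} => x o.1 / I.gcd x) := by
  obtain ⟨h1, h2, h3, h4, -, -⟩ := hx
  have hg := PSplit_gpos h1 hI
  have hsub : ∀ J : Finset {o // o ∈ I}, I.gcd x * ∑ o ∈ J, B o.1 * (x o.1 / I.gcd x) = ∑ o ∈ J, B o.1 * x o.1 := by
    intro J
    rw [Finset.mul_sum]
    refine Finset.sum_congr rfl fun o _ => ?_
    calc I.gcd x * (B o.1 * (x o.1 / I.gcd x)) = B o.1 * (I.gcd x * (x o.1 / I.gcd x)) := by ring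
      _ = B o.1 * x o.1 := by rw [PSplit_gmul o.2]
  have hne : ∀ o : {o // o ∈ I}, x o.1 / I.gcd x ≠ 0 := by
    intro o h
    have h5 := PSplit_gmul (x := x) o.2
    rw [h, mul_zero] at h5
    exact h1 _ h5.symm
  have hdvd : ∀ o : {o // o ∈ I}, (x o.1 / I.gcd x).natAbs ∣ (x o.1).natAbs := fun o =>
    Int.natAbs_dvd_natAbs.2 (Dvd.intro_left _ (PSplit_gmul o.2))
  refine ⟨hne, fun d hd => ?_, fun o => ?_, fun o => ?_, ?_, fun J hJ hJu => ?_⟩
  · have h5 : I.gcd x * d ∣ I.gcd x := by
      conv_rhs => rw [← Finset.normalize_gcd]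
      refine Dvd.dvd.trans ?_ (normalize_associated _).symm.dvd
      refine Finset.dvd_gcd fun i hi => ?_
      rw [← PSplit_gmul (x := x) hi]
      exact mul_dvd_mul_left _ (hd ⟨i, hi⟩)
    have h6 : I.gcd x * d ∣ I.gcd x * 1 := by rwa [mul_one]
    exact isUnit_of_dvd_one ((mul_dvd_mul_iff_left hg.ne').1 h6)
  · exact (Nat.primeFactors_mono (hdvd o) (Int.natAbs_ne_zero.2 (h1 _))).trans (h3 _)
  · exact (Nat.le_of_dvd (Int.natAbs_pos.2 (h1 _)) (hdvd o)).trans (h4 _)
  · have h5 := hsub univ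
    have h6 : ∑ o : {o // o ∈ I}, B o.1 * x o.1 = 0 := by
      rw [← hsum, ← Finset.sum_coe_sort I]
    rw [h6] at h5
    exact (mul_eq_zero.1 h5).resolve_left hg.ne'
  · intro h0
    have h5 := hsub J
    rw [h0, mul_zero] at h5
    have h8 := hmin (J.map (Function.Embedding.subtype _)) (fun o ho => by
      obtain ⟨o', -, rfl⟩ := Finset.mem_map.1 ho
      exact o'.2) (hJ.map) (fun h => hJu (by
        rw [Finset.eq_univ_iff_forall]
        intro o
        have h9 : o.1 ∈ J.map (Function.Embedding.subtype _) := by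
          rw [h]
          exact o.2
        obtain ⟨o', ho', ho''⟩ := Finset.mem_map.1 h9
        have h10 : o' = o := Subtype.ext ho''
        rwa [h10] at ho'))
    rw [Finset.sum_map] at h8
    exact h8 h5.symm

/-- the coefficients of the collapsed equation -/
private def PSplit_b {ι : Type} (c : ℤ) (b : ι → ℤ) (I : Finset ι) : Option {i : ι // i ∉ I} → ℤ
  | none => c
  | some i => b i.1

/-- the entries of the collapsed equation -/
private def PSplit_x {ι : Type} [DecidableEq ι] (x : ι → ℤ) (I : Finset ι) : Option {i : ι // i ∉ I} → ℤ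
  | none => I.gcd x
  | some i => x i.1

/-- The sum over a set of the collapsed indices. -/
private theorem PSplit_sum {ι : Type} [Fintype ι] [DecidableEq ι] (b x z : ι → ℤ) (I : Finset ι)
    (hfib : ∀ i ∈ I, x i = I.gcd x * z i) (J : Finset (Option {i : ι // i ∉ I})) :
    ∑ o ∈ J, PSplit_b (∑ i ∈ I, b i * z i) b I o * PSplit_x x I o =
      ∑ i ∈ (if none ∈ J then I else ∅) ∪ (univ.filter fun i : ι => ∃ h : i ∉ I, some ⟨i, h⟩ ∈ J),
        b i * x i := by
  classical
  have hdisj : Disjoint (if none ∈ J then I else ∅)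
      (univ.filter fun i : ι => ∃ h : i ∉ I, some ⟨i, h⟩ ∈ J) := by
    rw [Finset.disjoint_left]
    intro i hi hi'
    obtain ⟨-, h, -⟩ := Finset.mem_filter.1 hi'
    split_ifs at hi with h0
    · exact h hi
    · exact absurd hi (Finset.notMem_empty i)
  rw [Finset.sum_union hdisj]
  have hJ : ∑ o ∈ J, PSplit_b (∑ i ∈ I, b i * z i) b I o * PSplit_x x I o =
      ∑ o, if o ∈ J then PSplit_b (∑ i ∈ I, b i * z i) b I o * PSplit_x x I o else 0 := by
    rw [Finset.sum_ite_mem, Finset.univ_inter]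
  rw [hJ, Fintype.sum_option]
  congr 1
  · by_cases h0 : none ∈ J
    · rw [if_pos h0, if_pos h0]
      simp only [PSplit_b, PSplit_x]
      rw [Finset.sum_mul]
      refine Finset.sum_congr rfl fun i hi => ?_
      calc b i * z i * I.gcd x = b i * (I.gcd x * z i) := by ring
        _ = b i * x i := by rw [← hfib i hi]
    · rw [if_neg h0, if_neg h0, Finset.sum_empty]
  · rw [Finset.sum_filter]
    have h1 : ∑ i : ι, (if ∃ h : i ∉ I, some ⟨i, h⟩ ∈ J then b i * x i else 0) =
        ∑ i ∈ univ.filter (fun i : ι => i ∉ I), (if ∃ h : i ∉ I, some ⟨i, h⟩ ∈ J then b i * x i else 0) := by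
      rw [Finset.sum_filter]
      refine Finset.sum_congr rfl fun i _ => ?_
      by_cases hi : i ∉ I
      · rw [if_pos hi]
      · rw [if_neg hi, if_neg]
        rintro ⟨h, -⟩
        exact hi h
    rw [h1, Finset.sum_subtype (univ.filter fun i : ι => i ∉ I) (p := fun i => i ∉ I) (by simp)]
    refine Finset.sum_congr rfl fun i _ => ?_
    by_cases hi : some i ∈ J
    · rw [if_pos hi, if_pos ⟨i.2, hi⟩]
      rfl
    · rw [if_neg hi, if_neg]
      rintro ⟨h, h'⟩
      exact hi h'

private theorem PSplit_coll {ι : Type} [Fintype ι] [DecidableEq ι] {S : Finset ℕ} {Λ : ℕ}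
    {b x z : ι → ℤ} (hx : PSol S Λ b x) (I : Finset ι) (hI : I.Nonempty)
    (hfib : ∀ i ∈ I, x i = I.gcd x * z i) :
    PSol S Λ (PSplit_b (∑ i ∈ I, b i * z i) b I) (PSplit_x x I) := by
  classical
  obtain ⟨h1, h2, h3, h4, h5, h6⟩ := hx
  have hg := PSplit_gpos h1 hI
  obtain ⟨i₁, hi₁⟩ := hI
  have hI : I.Nonempty := ⟨i₁, hi₁⟩
  have hgd : (I.gcd x).natAbs ∣ (x i₁).natAbs := Int.natAbs_dvd_natAbs.2 (Finset.gcd_dvd hi₁)
  refine ⟨fun o => ?_, fun d hd => ?_, fun o => ?_, fun o => ?_, ?_, fun J hJ hJu => ?_⟩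
  · rcases o with _ | i
    · exact hg.ne'
    · exact h1 _
  · refine h2 d fun i => ?_
    by_cases hi : i ∈ I
    · exact (hd none).trans (Finset.gcd_dvd hi)
    · exact hd (some ⟨i, hi⟩)
  · rcases o with _ | i
    · exact (Nat.primeFactors_mono hgd (Int.natAbs_ne_zero.2 (h1 _))).trans (h3 _)
    · exact h3 _
  · rcases o with _ | i
    · exact (Nat.le_of_dvd (Int.natAbs_pos.2 (h1 _)) hgd).trans (h4 _)
    · exact h4 _
  · rw [PSplit_sum b x z I hfib univ, ← h5]
    refine Finset.sum_congr ?_ fun i _ => rfl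
    rw [if_pos (Finset.mem_univ _), Finset.eq_univ_iff_forall]
    intro i
    by_cases hi : i ∈ I
    · exact Finset.mem_union_left _ hi
    · exact Finset.mem_union_right _ (Finset.mem_filter.2 ⟨Finset.mem_univ _, hi, Finset.mem_univ _⟩)
  · rw [PSplit_sum b x z I hfib J]
    apply h6
    · obtain ⟨o, ho⟩ := hJ
      rcases o with _ | i
      · rw [if_pos ho]
        exact hI.mono Finset.subset_union_left
      · exact ⟨i.1, Finset.mem_union_right _ (Finset.mem_filter.2 ⟨Finset.mem_univ _, i.2, ho⟩)⟩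
    · intro h
      rw [Finset.eq_univ_iff_forall] at h
      apply hJu
      rw [Finset.eq_univ_iff_forall]
      intro o
      rcases o with _ | i
      · obtain ⟨i₀, hi₀⟩ := hI
        by_contra h0
        have h7 := h i₀
        rw [if_neg h0, Finset.empty_union, Finset.mem_filter] at h7
        obtain ⟨-, h8, -⟩ := h7
        exact h8 hi₀
      · have h7 := h i.1
        rcases Finset.mem_union.1 h7 with h8 | h8
        · split_ifs at h8 with h0
          · exact absurd h8 i.2
          · exact absurd h8 (Finset.notMem_empty _)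
        · obtain ⟨-, h9, h10⟩ := Finset.mem_filter.1 h8
          exact h10

/-- as `usplit`: the restriction to a minimal vanishing set `I` is divided by its greatest common divisor `g`, and the other entries together with `g` solve an equation with fewer terms. -/
theorem psplit {k C : ℕ} (hk : 3 ≤ k) (hC : ∀ k', 2 ≤ k' → k' < k → PBd k' C) (ι : Type) [Fintype ι] [DecidableEq ι] (hι : Fintype.card ι = k)
    (j : ι) (S : Finset ℕ) (hS : ∀ p ∈ S, p.Prime) (Λ : ℕ) (b : ι → ℤ) (hb : ∀ i, b i ≠ 0) (Z : Finset (ι → ℤ))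
    (hZ : ∀ x ∈ Z, PSol S Λ b x) (b' : ι → ℤ) (hb' : b' ≠ 0) (hj : b' j = 0) (hrel : ∀ x ∈ Z, ∑ i, b' i * b i * x i = 0) :
    Z.card ≤ 2 ^ k * (Bd C S.card Λ * Bd C S.card Λ) := by
  classical
  have _ := hk
  set B : ι → ℤ := fun i => b' i * b i with hB
  have hPne : (univ.filter fun o => b' o ≠ 0).Nonempty := by
    obtain ⟨i, hi⟩ : ∃ i, b' i ≠ 0 := by
      by_contra h
      push Not at h
      exact hb' (funext h)
    exact ⟨i, Finset.mem_filter.2 ⟨Finset.mem_univ _, hi⟩⟩
  have hex : ∀ x, ∃ I : Finset ι, x ∈ Z → (I ⊆ univ.filter fun o => b' o ≠ 0) ∧ I.Nonempty ∧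
      ∑ o ∈ I, B o * x o = 0 ∧
      ∀ J ⊆ I, J.Nonempty → J ≠ I → ∑ o ∈ J, B o * x o ≠ 0 := by
    intro x
    by_cases hx : x ∈ Z
    · have h1 : ∑ o ∈ univ.filter (fun o => b' o ≠ 0), B o * x o = 0 := by
        rw [Finset.sum_filter_of_ne]
        · exact hrel x hx
        · intro o _ ho h
          apply ho
          simp only [hB, h, zero_mul]
      obtain ⟨I, hI1, hI2, hI3, hI4⟩ := exists_min (fun o => B o * x o) hPne h1
      exact ⟨I, fun _ => ⟨hI1, hI2, hI3, hI4⟩⟩
    · exact ⟨∅, fun h => absurd h hx⟩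
  choose I hI using hex
  have hBne : ∀ x ∈ Z, ∀ o ∈ I x, B o ≠ 0 := by
    intro x hx o ho
    exact mul_ne_zero (Finset.mem_filter.1 ((hI x hx).1 ho)).2 (hb o)
  have hcard2 : ∀ x ∈ Z, 2 ≤ (I x).card := by
    intro x hx
    obtain ⟨h1, h2, h3, -⟩ := hI x hx
    have h4 := h2.card_pos
    by_contra h5
    have h6 : (I x).card = 1 := by omega
    obtain ⟨o, ho⟩ := Finset.card_eq_one.1 h6
    rw [ho, Finset.sum_singleton] at h3
    have h7 : o ∈ I x := by
      rw [ho]
      exact Finset.mem_singleton_self o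
    rcases mul_eq_zero.1 h3 with h8 | h8
    · exact hBne x hx o h7 h8
    · exact (hZ x hx).1 o h8
  have hjI : ∀ x ∈ Z, j ∉ I x := by
    intro x hx h
    exact (Finset.mem_filter.1 ((hI x hx).1 h)).2 hj
  have hcardk : ∀ x ∈ Z, (I x).card < k := by
    intro x hx
    rw [← hι, ← Finset.card_univ]
    refine Finset.card_lt_card (lt_of_le_of_ne (Finset.subset_univ _) fun h => ?_)
    exact hjI x hx (by rw [h]; exact Finset.mem_univ j)
  have hfibI : ∀ J : Finset ι, (Z.filter fun x => I x = J).card ≤ Bd C S.card Λ * Bd C S.card Λ := by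
    intro J
    rcases (Z.filter fun x => I x = J).eq_empty_or_nonempty with hem | ⟨y, hy⟩
    · rw [hem]
      simp
    obtain ⟨hyZ, hyJ⟩ := Finset.mem_filter.1 hy
    have hJ2 : 2 ≤ J.card := by
      rw [← hyJ]
      exact hcard2 y hyZ
    have hJk : J.card < k := by
      rw [← hyJ]
      exact hcardk y hyZ
    have hJne : J.Nonempty := Finset.card_pos.1 (by omega)
    have hjJ : j ∉ J := by
      rw [← hyJ]
      exact hjI y hyZ
    have himg : ((Z.filter fun x => I x = J).image fun x => fun o : {o // o ∈ J} => x o.1 / J.gcd x).card ≤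
        Bd C S.card Λ := by
      refine hC J.card hJ2 hJk {o // o ∈ J} (Fintype.card_coe J) S hS Λ
        (fun o => B o.1) (fun o => ?_) _ fun z hz => ?_
      · have h1 := hBne y hyZ
        rw [hyJ] at h1
        exact h1 o.1 o.2
      · obtain ⟨x, hx, rfl⟩ := Finset.mem_image.1 hz
        obtain ⟨hxZ, hxJ⟩ := Finset.mem_filter.1 hx
        obtain ⟨-, -, h3, h4⟩ := hI x hxZ
        rw [hxJ] at h3 h4
        exact PSplit_restr (hZ x hxZ) B J hJne h3 h4
    have hfib : ∀ z ∈ (Z.filter fun x => I x = J).image (fun x => fun o : {o // o ∈ J} => x o.1 / J.gcd x),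
        ((Z.filter fun x => I x = J).filter fun x =>
          (fun o : {o // o ∈ J} => x o.1 / J.gcd x) = z).card ≤ Bd C S.card Λ := by
      intro z hz
      obtain ⟨x0, hx0, rfl⟩ := Finset.mem_image.1 hz
      obtain ⟨hx0Z, hx0J⟩ := Finset.mem_filter.1 hx0
      have hc : Fintype.card {i : ι // i ∉ J} = k - J.card := by
        rw [Fintype.card_subtype_compl, Fintype.card_coe, hι]
      have hval : ∀ x ∈ (Z.filter fun x => I x = J).filter (fun x =>
          (fun o : {o // o ∈ J} => x o.1 / J.gcd x) = fun o : {o // o ∈ J} => x0 o.1 / J.gcd x0),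
          ∀ i ∈ J, x i = J.gcd x * (x0 i / J.gcd x0) := by
        intro x hx i hi
        have h1 : x i / J.gcd x = x0 i / J.gcd x0 := congrFun (Finset.mem_filter.1 hx).2 ⟨i, hi⟩
        rw [← h1]
        exact (PSplit_gmul hi).symm
      have hcne : ∑ i ∈ J, b i * (x0 i / J.gcd x0) ≠ 0 := by
        intro h
        have h1 : J.gcd x0 * ∑ i ∈ J, b i * (x0 i / J.gcd x0) = ∑ i ∈ J, b i * x0 i := by
          rw [Finset.mul_sum]
          refine Finset.sum_congr rfl fun i hi => ?_
          calc J.gcd x0 * (b i * (x0 i / J.gcd x0)) = b i * (J.gcd x0 * (x0 i / J.gcd x0)) := by ring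
            _ = b i * x0 i := by rw [PSplit_gmul hi]
        rw [h, mul_zero] at h1
        exact (hZ x0 hx0Z).2.2.2.2.2 J hJne (fun h => hjJ (by rw [h]; exact Finset.mem_univ j)) h1.symm
      have h1 : (((Z.filter fun x => I x = J).filter (fun x =>
          (fun o : {o // o ∈ J} => x o.1 / J.gcd x) = fun o : {o // o ∈ J} => x0 o.1 / J.gcd x0)).image
            fun x => PSplit_x x J).card ≤ Bd C S.card Λ := by
        refine hC (k - J.card + 1) (by omega) (by omega) (Option {i : ι // i ∉ J})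
          (by rw [Fintype.card_option, hc]) S hS Λ (PSplit_b (∑ i ∈ J, b i * (x0 i / J.gcd x0)) b J)
          (fun o => ?_) _ fun w hw => ?_
        · rcases o with _ | i
          · exact hcne
          · exact hb _
        · obtain ⟨x, hx, rfl⟩ := Finset.mem_image.1 hw
          have hxZ := (Finset.mem_filter.1 (Finset.mem_filter.1 hx).1).1
          exact PSplit_coll (z := fun i => x0 i / J.gcd x0) (hZ x hxZ) J hJne (hval x hx)
      rwa [Finset.card_image_of_injOn] at h1
      intro x hx x' hx' hxx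
      have hx1 := hval x hx
      have hx2 := hval x' hx'
      have hgg : J.gcd x = J.gcd x' := congrFun hxx none
      funext i
      by_cases hi : i ∈ J
      · rw [hx1 i hi, hx2 i hi, hgg]
      · exact congrFun hxx (some ⟨i, hi⟩)
    exact (Finset.card_le_mul_card_image _ _ hfib).trans (Nat.mul_le_mul_left _ himg)
  have h1 : Z.card ≤ (Bd C S.card Λ * Bd C S.card Λ) * (Z.image I).card :=
    Finset.card_le_mul_card_image _ _ fun J _ => hfibI J
  have h2 : (Z.image I).card ≤ 2 ^ k := by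
    refine (Finset.card_le_univ _).trans ?_
    rw [Fintype.card_finset, hι]
  calc Z.card ≤ (Bd C S.card Λ * Bd C S.card Λ) * (Z.image I).card := h1
    _ ≤ (Bd C S.card Λ * Bd C S.card Λ) * 2 ^ k := Nat.mul_le_mul_left _ h2
    _ = 2 ^ k * (Bd C S.card Λ * Bd C S.card Λ) := by ring

end Pool.MP_a95293_nt.TE
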