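import Pool.Agent.Lib_MP_a95293_te.PCov
import Pool.Agent.Lib_MP_a95293_te.PSplit

/-!
# Lemma U for primitive tuples
-/

set_option autoImplicit false

namespace Pool.MP_a95293_nt.TE

open Finset Pool.MP_a95293_nt.TN

theorem PBd_mono {k C C' : ℕ} (hC : 1 ≤ C) (h : C ≤ C') (hU : PBd k C) : PBd k C' := by
  intro ι _ _ hι S hS Λ b hb Z hZ
  exact (hU ι hι S hS Λ b hb Z hZ).trans (Bd_mono hC h)

private theorem pfin_common (n : ℕ) (h : ∀ k', 2 ≤ k' → k' < n → ∃ C : ℕ, 1 ≤ C ∧ PBd k' C) :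
    ∃ C : ℕ, 1 ≤ C ∧ ∀ k', 2 ≤ k' → k' < n → PBd k' C := by
  induction n with
  | zero => exact ⟨1, le_rfl, fun k' _ hk => absurd hk (Nat.not_lt_zero _)⟩
  | succ n ih =>
    obtain ⟨C₁, hC₁, h₁⟩ := ih fun k' h2 hk => h k' h2 (Nat.lt_succ_of_lt hk)
    by_cases h2 : 2 ≤ n
    · obtain ⟨C₂, hC₂, h₂⟩ := h n h2 (Nat.lt_succ_self n)
      refine ⟨C₁ + C₂, by omega, fun k' h2' hk => ?_⟩
      rcases Nat.lt_succ_iff_lt_or_eq.1 hk with hk | rfl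
      · exact PBd_mono hC₁ (Nat.le_add_right _ _) (h₁ k' h2' hk)
      · exact PBd_mono hC₂ (Nat.le_add_left _ _) h₂
    · exact ⟨C₁, hC₁, fun k' h2' hk => by omega⟩

private theorem pfin_pow_le_Bd (k s Λ : ℕ) : 2 ^ k ≤ Bd (2 ^ k) s Λ := by
  have h1 : 1 ≤ 2 ^ k := Nat.one_le_two_pow
  refine le_trans ?_ (le_Bd h1)
  calc 2 ^ k = (2 ^ k) ^ 1 * 1 := by ring
    _ ≤ (2 ^ k) ^ (s + 1) * (Nat.log 2 Λ + 2) :=
      Nat.mul_le_mul (Nat.pow_le_pow_right h1 (by omega)) (by omega)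

private theorem pfin_Bd_pos {C : ℕ} (hC : 1 ≤ C) (s Λ : ℕ) : 1 ≤ Bd C s Λ := by
  refine le_trans ?_ (le_Bd hC)
  exact Nat.one_le_iff_ne_zero.2 (Nat.mul_ne_zero (pow_ne_zero _ (by omega)) (by omega))

/-- **Lemma U.** PROOF: strong induction: `pbd_two`; `k ≥ 3`: a common constant `C` for all `2 ≤ k' < k` (`PBd_mono`), then `pcover` with `N = 2^k * (Bd C * Bd C)` and `psplit`; `Bd_mul`, `le_Bd`. -/
theorem lemP (k : ℕ) (hk : 2 ≤ k) : ∃ C : ℕ, 1 ≤ C ∧ PBd k C := by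
  induction k using Nat.strong_induction_on with
  | _ k ih =>
    rcases Nat.lt_or_ge 2 k with h3 | h3
    · obtain ⟨C, hC, hU⟩ := pfin_common k fun k' h2 hk' => ih k' hk' h2
      obtain ⟨C₁, hC₁, hcov⟩ := pcover k hk
      have h2k : 1 ≤ 2 ^ k := Nat.one_le_two_pow
      refine ⟨C₁ + (2 ^ k + (C + C)), by omega, ?_⟩
      intro ι _ _ hι S hS Λ b hb Z hZ
      have hne : Nonempty ι := by
        rw [← Fintype.card_pos_iff]; omega
      obtain ⟨j⟩ := hne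
      have hN : 1 ≤ 2 ^ k * (Bd C S.card Λ * Bd C S.card Λ) :=
        Nat.one_le_iff_ne_zero.2 (Nat.mul_ne_zero (by omega)
          (Nat.mul_ne_zero (Nat.one_le_iff_ne_zero.1 (pfin_Bd_pos hC _ _))
            (Nat.one_le_iff_ne_zero.1 (pfin_Bd_pos hC _ _))))
      have h := hcov ι hι j S hS Λ b hb Z hZ _ hN (by
        rintro Z' hZ' ⟨b', hb', hj, hrel⟩
        exact psplit (by omega) hU ι hι j S hS Λ b hb Z' (fun x hx => hZ x (hZ' hx)) b' hb' hj hrel)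
      refine h.trans ?_
      calc C₁ ^ (S.card + 1) * (Nat.log 2 Λ + 2) * (2 ^ k * (Bd C S.card Λ * Bd C S.card Λ))
          ≤ Bd C₁ S.card Λ * (Bd (2 ^ k) S.card Λ * Bd (C + C) S.card Λ) :=
            Nat.mul_le_mul (le_Bd hC₁) (Nat.mul_le_mul (pfin_pow_le_Bd k _ _) (Bd_mul hC hC))
        _ ≤ Bd C₁ S.card Λ * Bd (2 ^ k + (C + C)) S.card Λ :=
            Nat.mul_le_mul le_rfl (Bd_mul h2k (by omega))
        _ ≤ Bd (C₁ + (2 ^ k + (C + C))) S.card Λ := Bd_mul hC₁ (by omega)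
    · have : k = 2 := by omega
      subst this
      exact ⟨2, by omega, pbd_two⟩

/-- a common constant -/
theorem lemP_all (k : ℕ) : ∃ C : ℕ, 1 ≤ C ∧ ∀ k', 2 ≤ k' → k' ≤ k → PBd k' C := by
  obtain ⟨C, hC, h⟩ := pfin_common (k + 1) fun k' h2 _ => lemP k' h2
  exact ⟨C, hC, fun k' h2 hk => h k' h2 (Nat.lt_succ_of_le hk)⟩

end Pool.MP_a95293_nt.TE
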