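import Pool.Agent.Lib_MP_a95293_tn.CAdm
import Pool.Agent.Lib_MP_a95293_tn.Asy
import Pool.Agent.Lib_MP_a95293_te.PFin

/-!
# The admissible tuples with a given radical
-/

set_option autoImplicit false

namespace Pool.MP_a95293_nt.TE

open Finset Pool.MP_a95293_nt.RC Pool.MP_a95293_nt.PQ Pool.MP_a95293_nt.TN

theorem adm_ne {n : ℕ} (hn : 2 ≤ n) {x : Fin n → ℤ} (hx : Adm x) (i : Fin n) : x i ≠ 0 := by
  have h := hx.2.2 {i} (singleton_nonempty i) (fun h => by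
    have h1 := congrArg Finset.card h
    rw [card_singleton, card_univ, Fintype.card_fin] at h1
    omega)
  rwa [sum_singleton] at h

theorem adm_rad {n : ℕ} (hn : 2 ≤ n) {x : Fin n → ℤ} (hx : Adm x) (i : Fin n) :
    (x i).natAbs.primeFactors ⊆ (∏ i, x i).natAbs.primeFactors :=
  Nat.primeFactors_mono (Int.natAbs_dvd_natAbs.2 (dvd_prod_of_mem _ (mem_univ i)))
    (Int.natAbs_ne_zero.2 (prod_ne_zero_iff.2 fun m _ => adm_ne hn hx m))

theorem adm_prim {n : ℕ} {x : Fin n → ℤ} (hx : Adm x) (d : ℤ) (hd : ∀ i, d ∣ x i) : IsUnit d := by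
  apply isUnit_of_dvd_one
  rw [← hx.1]
  exact Finset.dvd_gcd fun i _ => hd i

theorem adm_psol {n : ℕ} (hn : 2 ≤ n) {x : Fin n → ℤ} (hx : Adm x) {Λ : ℕ} (hΛ : ∀ i, (x i).natAbs ≤ 2 ^ Λ) :
    PSol (radZ (∏ i, x i)).primeFactors Λ (fun _ => 1) x := by
  have h1 : (radZ (∏ i, x i)).primeFactors = (∏ i, x i).natAbs.primeFactors := by
    unfold radZ
    exact Nat.primeFactors_prod fun p hp => Nat.prime_of_mem_primeFactors hp
  refine ⟨fun i => adm_ne hn hx i, fun d hd => adm_prim hx d hd, fun i => ?_, hΛ, ?_, fun I hI hI' => ?_⟩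
  · rw [h1]
    exact adm_rad hn hx i
  · simp only [one_mul]
    exact hx.2.1
  · simp only [one_mul]
    exact hx.2.2 I hI hI'

/-- the number of admissible tuples with a given radical -/
theorem cntP (n B : ℕ) (hn : 2 ≤ n) {κ : ℝ} (hκ : 0 < κ) : ∃ X₀ : ℕ, ∀ X ≥ X₀, ∀ R ≤ X, ∀ Z : Finset (Fin n → ℤ),
    (∀ x ∈ Z, Adm x ∧ (∀ i, |(x i : ℝ)| ≤ Real.exp (Real.exp (Real.log X ^ B))) ∧ radZ (∏ i, x i) = R) →
    (Z.card : ℝ) ≤ (X : ℝ) ^ κ := by
  classical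
  obtain ⟨C, hC, hU⟩ := lemP n hn
  obtain ⟨X₀, hX₀⟩ := Bd_small C B hκ
  refine ⟨X₀, fun X hX R hR Z hZ => ?_⟩
  rcases Z.eq_empty_or_nonempty with rfl | ⟨x₀, hx₀⟩
  · rw [card_empty, Nat.cast_zero]
    exact Real.rpow_nonneg (Nat.cast_nonneg X) κ
  have hR0 : R ≠ 0 := by
    rw [← (hZ x₀ hx₀).2.2]
    unfold radZ
    exact (Finset.prod_pos fun p hp => (Nat.prime_of_mem_primeFactors hp).pos).ne'
  have hprod : ∏ p ∈ R.primeFactors, p ≤ X :=
    (Nat.le_of_dvd (Nat.pos_of_ne_zero hR0) (Nat.prod_primeFactors_dvd R)).trans hR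
  have h1 := hU (Fin n) (Fintype.card_fin n) R.primeFactors (fun p hp => Nat.prime_of_mem_primeFactors hp)
    ⌈2 * Real.exp (Real.log X ^ B)⌉₊ (fun _ => 1) (fun _ => one_ne_zero) Z (fun x hx => by
      have h2 := adm_psol hn (hZ x hx).1 (Λ := ⌈2 * Real.exp (Real.log X ^ B)⌉₊)
        (fun i => abs_le_two_pow ((hZ x hx).2.1 i))
      rwa [(hZ x hx).2.2] at h2)
  have h3 := hX₀ X hX R.primeFactors (fun p hp => Nat.prime_of_mem_primeFactors hp) hprod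
  exact le_trans (by exact_mod_cast h1) h3

end Pool.MP_a95293_nt.TE
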