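import Pool.Agent.Lib_MP_a95293_te.CntP

/-!
# Elementary counts: units with small exponents, products of few primes
-/

set_option autoImplicit false

namespace Pool.MP_a95293_nt.TE

open Finset Pool.MP_a95293_nt.RC Pool.MP_a95293_nt.PQ Pool.MP_a95293_nt.TN

/-- the non-zero integers with all primes in `P`, at most `2 ^ E` -/
noncomputable def Un (P : Finset ℕ) (E : ℕ) : Finset ℤ := by
  classical
  exact (Icc (-(2 ^ E : ℤ)) (2 ^ E)).filter fun u => u ≠ 0 ∧ u.natAbs.primeFactors ⊆ P

theorem mem_Un {P : Finset ℕ} {E : ℕ} {u : ℤ} (h0 : u ≠ 0) (hP : u.natAbs.primeFactors ⊆ P) (hE : u.natAbs ≤ 2 ^ E) : u ∈ Un P E := by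
  classical
  unfold Un
  rw [mem_filter, mem_Icc]
  have h1 : |u| ≤ 2 ^ E := by
    rw [← Int.natCast_natAbs]
    exact_mod_cast hE
  exact ⟨abs_le.1 h1, h0, hP⟩

theorem un_card (P : Finset ℕ) (E : ℕ) : (Un P E).card ≤ 2 * (E + 1) ^ P.card := by
  classical
  have h1 : (Un P E).card ≤ ((univ : Finset Bool) ×ˢ (Fintype.piFinset fun _ : {p // p ∈ P} => range (E + 1))).card := by
    apply card_le_card_of_injOn (fun u : ℤ => (decide (0 < u), fun p : {p // p ∈ P} => u.natAbs.factorization p.1))
    · intro u hu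
      rw [mem_coe] at hu
      unfold Un at hu
      rw [mem_filter, mem_Icc] at hu
      obtain ⟨hu1, hu0, hu2⟩ := hu
      rw [mem_coe, mem_product]
      refine ⟨mem_univ _, ?_⟩
      rw [Fintype.mem_piFinset]
      intro p
      rw [mem_range, Nat.lt_succ_iff]
      have h2 : u.natAbs ≤ 2 ^ E := by
        have h3 : |u| ≤ 2 ^ E := abs_le.2 hu1
        rw [← Int.natCast_natAbs] at h3
        exact_mod_cast h3
      by_cases hp : p.1.Prime
      · have h3 : 2 ^ u.natAbs.factorization p.1 ≤ 2 ^ E := by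
          calc 2 ^ u.natAbs.factorization p.1 ≤ p.1 ^ u.natAbs.factorization p.1 := Nat.pow_le_pow_left hp.two_le _
            _ ≤ u.natAbs := Nat.ordProj_le _ (Int.natAbs_ne_zero.2 hu0)
            _ ≤ 2 ^ E := h2
        exact (Nat.pow_le_pow_iff_right (by norm_num)).1 h3
      · show u.natAbs.factorization p.1 ≤ E
        rw [Nat.factorization_eq_zero_of_not_prime _ hp]
        exact Nat.zero_le _
    · intro u hu v hv huv
      rw [mem_coe] at hu hv
      unfold Un at hu hv
      rw [mem_filter, mem_Icc] at hu hv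
      obtain ⟨-, hu0, hu2⟩ := hu
      obtain ⟨-, hv0, hv2⟩ := hv
      simp only [Prod.mk.injEq, decide_eq_decide] at huv
      obtain ⟨hs, hf⟩ := huv
      have habs : u.natAbs = v.natAbs := by
        apply Nat.eq_of_factorization_eq (Int.natAbs_ne_zero.2 hu0) (Int.natAbs_ne_zero.2 hv0)
        intro p
        by_cases hp : p ∈ P
        · exact congrFun hf ⟨p, hp⟩
        · have h3 : ∀ w : ℤ, w.natAbs.primeFactors ⊆ P → w.natAbs.factorization p = 0 := by
            intro w hw
            rw [← Finsupp.notMem_support_iff, Nat.support_factorization]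
            exact fun h => hp (hw h)
          rw [h3 u hu2, h3 v hv2]
      rcases Int.natAbs_eq_natAbs_iff.1 habs with h | h
      · exact h
      · exfalso
        omega
  refine h1.trans ?_
  rw [card_product, Fintype.card_piFinset, card_univ, Fintype.card_bool, prod_const, card_range, card_univ, Fintype.card_coe]

/-- few subsets of few elements -/
theorem subs_card (S : Finset ℕ) (w : ℕ) : (S.powerset.filter fun A => A.card ≤ w).card ≤ (S.card + 1) ^ w := by
  classical
  induction w with
  | zero =>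
    rw [pow_zero]
    apply card_le_one.2
    intro A hA B hB
    rw [mem_filter, Nat.le_zero, card_eq_zero] at hA hB
    rw [hA.2, hB.2]
  | succ w ih =>
    have h1 : (S.powerset.filter fun A => A.card ≤ w + 1) ⊆
        ((S.powerset.filter fun A => A.card ≤ w) ×ˢ (Finset.insertNone S)).image
          (fun q => match q.2 with
            | none => q.1
            | some a => insert a q.1) := by
      intro A hA
      rw [mem_filter, mem_powerset] at hA
      rw [mem_image]
      rcases A.eq_empty_or_nonempty with rfl | ⟨a, ha⟩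
      · refine ⟨(∅, none), ?_, rfl⟩
        rw [mem_product, mem_filter, mem_powerset]
        exact ⟨⟨empty_subset _, by simp⟩, by simp⟩
      · refine ⟨(A.erase a, some a), ?_, ?_⟩
        · rw [mem_product, mem_filter, mem_powerset]
          refine ⟨⟨(erase_subset _ _).trans hA.1, ?_⟩, ?_⟩
          · rw [card_erase_of_mem ha]
            omega
          · exact Finset.some_mem_insertNone.2 (hA.1 ha)
        · exact insert_erase ha
    refine (card_le_card h1).trans (card_image_le.trans ?_)
    rw [card_product, card_insertNone, pow_succ]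
    exact Nat.mul_le_mul_right _ ih

/-- products of at most `w` primes of `N` -/
noncomputable def Sp (N w : ℕ) : Finset ℕ := (N.primeFactors.powerset.filter fun A => A.card ≤ w).image fun A => ∏ p ∈ A, p

theorem sp_card {N w s : ℕ} (hN : N ≠ 0) (hs : N ≤ 2 ^ s) : (Sp N w).card ≤ (s + 1) ^ w := by
  refine card_image_le.trans ((subs_card _ _).trans (Nat.pow_le_pow_left (Nat.succ_le_succ ?_) w))
  have h1 : 2 ^ N.primeFactors.card ≤ 2 ^ s := by
    calc 2 ^ N.primeFactors.card ≤ ∏ p ∈ N.primeFactors, p := by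
          apply Finset.pow_card_le_prod
          intro p hp
          exact (Nat.prime_of_mem_primeFactors hp).two_le
      _ ≤ N := Nat.le_of_dvd (Nat.pos_of_ne_zero hN) (Nat.prod_primeFactors_dvd N)
      _ ≤ 2 ^ s := hs
  exact (Nat.pow_le_pow_iff_right (by norm_num)).1 h1

/-- the sums of `n` units, zeros allowed -/
noncomputable def Ns (n : ℕ) (P : Finset ℕ) (E : ℕ) : Finset ℤ :=
  (Fintype.piFinset fun _ : Fin n => insert 0 (Un P E)).image fun t => ∑ i, t i

theorem ns_card (n : ℕ) (P : Finset ℕ) (E : ℕ) : (Ns n P E).card ≤ (2 * (E + 1) ^ P.card + 1) ^ n := by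
  refine card_image_le.trans ?_
  rw [Fintype.card_piFinset, prod_const, card_univ, Fintype.card_fin]
  exact Nat.pow_le_pow_left ((card_insert_le _ _).trans (Nat.succ_le_succ (un_card P E))) n

/-- the possible radicals for a given cofactor `m` -/
noncomputable def Rm (n E w m : ℕ) : Finset ℕ :=
  ((Ns n m.primeFactors E).filter fun N => N ≠ 0 ∧ N.natAbs ≤ 2 ^ (E + n)).biUnion fun N => (Sp N.natAbs w).image fun κ => m * κ

theorem rm_card (n E w m : ℕ) (hm : m.primeFactors.card ≤ w) :
    (Rm n E w m).card ≤ (2 * (E + 1) ^ w + 1) ^ n * (E + n + 1) ^ w := by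
  unfold Rm
  refine (card_biUnion_le_card_mul _ _ ((E + n + 1) ^ w) ?_).trans (Nat.mul_le_mul_right _ ?_)
  · intro N hN
    rw [mem_filter] at hN
    exact card_image_le.trans (sp_card (Int.natAbs_ne_zero.2 hN.2.1) hN.2.2)
  · refine (card_filter_le _ _).trans ((ns_card _ _ _).trans (Nat.pow_le_pow_left (Nat.succ_le_succ (Nat.mul_le_mul_left _ ?_)) n))
    exact Nat.pow_le_pow_right (Nat.succ_pos _) hm

/-- the entries divisible by `p` -/
def spt {n : ℕ} (x : Fin n → ℤ) (p : ℕ) : Finset (Fin n) := univ.filter fun i => (p : ℤ) ∣ x i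

theorem mem_spt {n : ℕ} {x : Fin n → ℤ} {p : ℕ} {i : Fin n} : i ∈ spt x p ↔ (p : ℤ) ∣ x i := by
  unfold spt
  rw [mem_filter]
  exact ⟨fun h => h.2, fun h => ⟨mem_univ _, h⟩⟩

/-- **The radical of an admissible tuple.** For the primes `p` with a given set `T` of entries divisible by `p`: their product divides the sum of the other entries. -/
theorem rad_mem {n : ℕ} (hn : 2 ≤ n) {x : Fin n → ℤ} (hx : Adm x) {E w : ℕ} (hE : ∀ i, (x i).natAbs ≤ 2 ^ E)
    (T : Finset (Fin n)) (hT : T.Nonempty) (hT' : T ≠ univ)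
    (hw : ((∏ i, x i).natAbs.primeFactors.filter fun p => spt x p = T).card ≤ w) :
    radZ (∏ i, x i) ∈ Rm n E w
      (∏ p ∈ (∏ i, x i).natAbs.primeFactors.filter (fun p => ¬ spt x p = T), p) := by
  classical
  set P := (∏ i, x i).natAbs.primeFactors with hP
  set K := P.filter fun p => spt x p = T with hK
  set K' := P.filter fun p => ¬ spt x p = T with hK'
  have hPp : ∀ p ∈ P, p.Prime := fun p hp => Nat.prime_of_mem_primeFactors hp
  have hK'p : ∀ p ∈ K', p.Prime := fun p hp => hPp p (mem_filter.1 hp).1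
  have hKp : ∀ p ∈ K, p.Prime := fun p hp => hPp p (mem_filter.1 hp).1
  have hm : (∏ p ∈ K', p).primeFactors = K' := Nat.primeFactors_prod hK'p
  set N := ∑ i ∈ univ \ T, x i with hN
  have hTc : (univ \ T).Nonempty := by
    rw [sdiff_nonempty]
    exact fun h => hT' (univ_subset_iff.1 h)
  have hTc' : univ \ T ≠ univ := by
    intro h
    obtain ⟨i, hi⟩ := hT
    have h1 : i ∈ univ \ T := by
      rw [h]
      exact mem_univ i
    exact (mem_sdiff.1 h1).2 hi
  have hN0 : N ≠ 0 := hx.2.2 _ hTc hTc'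
  have hNs : N + ∑ i ∈ T, x i = 0 := by
    rw [hN, sum_sdiff (subset_univ T)]
    exact hx.2.1
  have hNle : N.natAbs ≤ 2 ^ (E + n) := by
    calc N.natAbs ≤ ∑ i ∈ univ \ T, (x i).natAbs := by
          rw [hN]
          exact Int.natAbs_sum_le _ _
      _ ≤ ∑ i ∈ univ \ T, 2 ^ E := sum_le_sum fun i _ => hE i
      _ = (univ \ T).card * 2 ^ E := by rw [sum_const, smul_eq_mul]
      _ ≤ 2 ^ n * 2 ^ E := by
          apply Nat.mul_le_mul_right
          have h1 : (univ \ T).card ≤ n := by
            refine (card_le_univ _).trans ?_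
            rw [Fintype.card_fin]
          exact h1.trans Nat.lt_two_pow_self.le
      _ = 2 ^ (E + n) := by rw [← pow_add, add_comm]
  unfold Rm
  rw [mem_biUnion]
  refine ⟨N, ?_, ?_⟩
  · rw [mem_filter]
    refine ⟨?_, hN0, hNle⟩
    unfold Ns
    rw [mem_image]
    refine ⟨fun i => if i ∈ T then 0 else x i, ?_, ?_⟩
    · rw [Fintype.mem_piFinset]
      intro i
      by_cases hi : i ∈ T
      · rw [if_pos hi]
        exact mem_insert_self _ _
      · rw [if_neg hi]
        refine mem_insert_of_mem (mem_Un (adm_ne hn hx i) ?_ (hE i))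
        rw [hm]
        intro p hp
        rw [hK', mem_filter]
        refine ⟨adm_rad hn hx i hp, fun h => hi ?_⟩
        rw [← h, mem_spt]
        exact Int.natCast_dvd.2 (Nat.dvd_of_mem_primeFactors hp)
    · rw [hN, sum_ite, sum_const_zero, zero_add]
      refine sum_congr ?_ fun _ _ => rfl
      ext i
      simp
  · rw [mem_image]
    refine ⟨∏ p ∈ K, p, ?_, ?_⟩
    · unfold Sp
      rw [mem_image]
      refine ⟨K, ?_, rfl⟩
      rw [mem_filter, mem_powerset]
      refine ⟨fun p hp => ?_, hw⟩
      rw [Nat.mem_primeFactors]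
      refine ⟨hKp p hp, ?_, Int.natAbs_ne_zero.2 hN0⟩
      rw [← Int.natCast_dvd]
      have h1 : (p : ℤ) ∣ ∑ i ∈ T, x i := by
        refine dvd_sum fun i hi => ?_
        rw [← (mem_filter.1 hp).2, mem_spt] at hi
        exact hi
      have h2 : N = -∑ i ∈ T, x i := by linarith
      rw [h2]
      exact h1.neg_right
    · unfold radZ
      rw [← hP, ← filter_union_filter_not_eq (fun p => spt x p = T) P,
        prod_union (disjoint_filter_filter_not _ _ _), mul_comm]

/-- some set `T` is the support of primes with a large product -/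
theorem exists_T {n : ℕ} (hn : 2 ≤ n) {x : Fin n → ℤ} (hx : Adm x) {Y : ℝ} (hY : 1 ≤ Y) (hR : Y ^ (2 ^ n) < radZ (∏ i, x i)) :
    ∃ T : Finset (Fin n), T.Nonempty ∧ T ≠ univ ∧
      Y < ∏ p ∈ (∏ i, x i).natAbs.primeFactors.filter (fun p => spt x p = T), (p : ℝ) := by
  classical
  set P := (∏ i, x i).natAbs.primeFactors with hP
  have hPp : ∀ p ∈ P, p.Prime := fun p hp => Nat.prime_of_mem_primeFactors hp
  have h1 : ((radZ (∏ i, x i) : ℕ) : ℝ) = ∏ T : Finset (Fin n), ∏ p ∈ P.filter (fun p => spt x p = T), (p : ℝ) := by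
    unfold radZ
    rw [← hP, Nat.cast_prod]
    exact (prod_fiberwise P (fun p => spt x p) (fun p => (p : ℝ))).symm
  obtain ⟨T, hT⟩ : ∃ T : Finset (Fin n), Y < ∏ p ∈ P.filter (fun p => spt x p = T), (p : ℝ) := by
    by_contra h
    push Not at h
    have h2 : ((radZ (∏ i, x i) : ℕ) : ℝ) ≤ Y ^ (2 ^ n) := by
      rw [h1]
      calc ∏ T : Finset (Fin n), ∏ p ∈ P.filter (fun p => spt x p = T), (p : ℝ)
          ≤ ∏ _T : Finset (Fin n), Y := prod_le_prod (fun T _ => prod_nonneg fun p _ => Nat.cast_nonneg p) fun T _ => h T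
        _ = Y ^ (2 ^ n) := by rw [prod_const, card_univ, Fintype.card_finset, Fintype.card_fin]
    exact absurd hR (not_lt.2 h2)
  have hne : (P.filter fun p => spt x p = T).Nonempty := by
    rw [nonempty_iff_ne_empty]
    intro h
    rw [h, prod_empty] at hT
    linarith
  obtain ⟨p, hp⟩ := hne
  obtain ⟨hpP, hpT⟩ := mem_filter.1 hp
  refine ⟨T, ?_, ?_, hT⟩
  · have h2 : (p : ℤ) ∣ ∏ i, x i := Int.natCast_dvd.2 (Nat.dvd_of_mem_primeFactors hpP)
    obtain ⟨i, _, hi⟩ := (Prime.dvd_finsetProd_iff (Nat.prime_iff_prime_int.1 (hPp p hpP)) _).1 h2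
    refine ⟨i, ?_⟩
    rw [← hpT, mem_spt]
    exact hi
  · intro h
    have h2 : IsUnit (p : ℤ) := adm_prim hx _ fun i => by
      have h3 : i ∈ T := by
        rw [h]
        exact mem_univ i
      rwa [← hpT, mem_spt] at h3
    exact (Nat.prime_iff_prime_int.1 (hPp p hpP)).not_isUnit h2

end Pool.MP_a95293_nt.TE
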