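import Pool.Agent.Lib_MP_a95293_te.PPre
import Pool.Agent.Lib_MP_a95293_tn.Cover

/-!
# Covering by solutions with a second relation
-/

set_option autoImplicit false

namespace Pool.MP_a95293_nt.TE

open Finset Pool.MP_a95293_nt.TN

private theorem PCov_log (k Λ : ℕ) : Nat.log 2 (k * Λ) + 2 ≤ (k + 1) * (Nat.log 2 Λ + 2) := by
  have h1 : Nat.log 2 (k * Λ) ≤ Nat.log 2 Λ + k := by
    rcases Nat.eq_zero_or_pos Λ with h0 | h0
    · subst h0
      simp
    · calc Nat.log 2 (k * Λ) ≤ Nat.log 2 (Λ * 2 ^ k) := by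
            apply Nat.log_mono_right
            rw [Nat.mul_comm]
            exact Nat.mul_le_mul_left _ (Nat.lt_two_pow_self).le
        _ = Nat.log 2 Λ + k := by
            clear * - h0
            induction k with
            | zero => simp
            | succ n ih =>
              rw [pow_succ, ← mul_assoc, Nat.log_mul_base (by norm_num) (by positivity), ih]
              ring
  nlinarith [Nat.zero_le (k * Nat.log 2 Λ)]

private theorem PCov_small {ι : Type} [Fintype ι] [DecidableEq ι] (hι : 2 ≤ Fintype.card ι) {S : Finset ℕ} {Λ : ℕ}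
    {b : ι → ℤ} (hb : ∀ i, b i ≠ 0) (A : Finset (ι → ℤ)) (hA : ∀ x ∈ A, PSol S Λ b x) (C₀ : ℕ)
    (hs : ∀ a ∈ A, ∀ i, (pv b a i).natAbs ≤ C₀) : A.card ≤ (2 * C₀ + 1) ^ Fintype.card ι := by
  classical
  have h1 : A.card ≤ (Fintype.piFinset (fun _ : ι => Finset.Icc (-(C₀ : ℤ)) C₀)).card := by
    apply Finset.card_le_card_of_injOn (pv b)
    · intro a ha
      simp only [Finset.mem_coe, Fintype.mem_piFinset, Finset.mem_Icc]
      intro i
      have := hs a ha i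
      omega
    · intro a ha c hc hac
      exact pv_inj hι hb (hA a ha) (hA c hc) hac
  refine h1.trans ?_
  rw [Fintype.card_piFinset, Finset.prod_const, Int.card_Icc, Finset.card_univ]
  apply Nat.pow_le_pow_left
  omega

/-- PROOF: `cover k` with `α = ι → ℤ`, `Y = pv b`, `v`, `w = 1` as in `pv_vec` (`x' = x₀` fixed), `h` = the smallest of the numbers `max_i |pv b x i|`, `x ∈ Z` (attained at `x₀`), `k Λ` for `Λ`
(`pv_height`). The sets `A'` with `|pv b x i| ≤ C₀` have at most `(2 C₀ + 1)^k` elements (`pv_inj`, `Fintype.piFinset (Icc (-C₀) C₀)`). For the sets with a relation use the hypothesis: `∑ b' i pv b x i = 0` times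
`gc b x`. So `N' = N + (2 C₀ + 1)^k` is allowed in `cover`; `Nat.log 2 (k Λ) ≤ Nat.log 2 Λ + k`, so `C` is a suitable multiple of everything. (`Z` empty: trivial.) -/
theorem pcover (k : ℕ) (hk : 2 ≤ k) : ∃ C : ℕ, 1 ≤ C ∧ ∀ (ι : Type) [Fintype ι] [DecidableEq ι], Fintype.card ι = k → ∀ (j : ι) (S : Finset ℕ),
    (∀ p ∈ S, p.Prime) → ∀ (Λ : ℕ) (b : ι → ℤ), (∀ i, b i ≠ 0) → ∀ Z : Finset (ι → ℤ), (∀ x ∈ Z, PSol S Λ b x) → ∀ N : ℕ, 1 ≤ N →
    (∀ Z' ⊆ Z, (∃ b' : ι → ℤ, b' ≠ 0 ∧ b' j = 0 ∧ ∀ x ∈ Z', ∑ i, b' i * b i * x i = 0) → Z'.card ≤ N) →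
    Z.card ≤ C ^ (S.card + 1) * (Nat.log 2 Λ + 2) * N := by
  obtain ⟨C₀, hC₀, hcov⟩ := cover k
  have hCpos : 1 ≤ C₀ * ((k + 1) * (1 + (2 * C₀ + 1) ^ k)) := by
    have : 0 < C₀ := hC₀
    have h2 : 0 < C₀ * ((k + 1) * (1 + (2 * C₀ + 1) ^ k)) := by positivity
    exact h2
  refine ⟨C₀ * ((k + 1) * (1 + (2 * C₀ + 1) ^ k)), hCpos, ?_⟩
  intro ι _ _ hι j S hS Λ b hb Z hZ N hN hrel
  haveI : Nonempty ι := ⟨j⟩
  rcases Z.eq_empty_or_nonempty with hZe | hZn
  · subst hZe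
    simp
  obtain ⟨x₀, hx₀, hmin⟩ := Finset.exists_min_image Z (fun x => univ.sup (fun i => (pv b x i).natAbs)) hZn
  have hx₀' := hZ x₀ hx₀
  have key := hcov ι hι j S hS (fun i => sf S (pv b x₀ i).natAbs) (ι → ℤ) Z (pv b)
    (fun x i p => (pv b x i).natAbs.factorization p) (fun _ => 1)
    (fun a ha => pv_vec hS hb (hZ a ha) hx₀' j)
    (univ.sup (fun i => (pv b x₀ i).natAbs)) (k * Λ)
    (by
      intro a ha
      obtain ⟨i, -, hi⟩ := Finset.exists_mem_eq_sup univ Finset.univ_nonempty (fun i => (pv b a i).natAbs)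
      refine ⟨i, ?_⟩
      rw [← hi]
      exact hmin a ha)
    (by
      intro a ha i
      have h1 := pv_height (H := univ.sup (fun i => (pv b x₀ i).natAbs)) hb (hZ a ha) hx₀'
        (fun i => Finset.le_sup (f := fun i => (pv b x₀ i).natAbs) (Finset.mem_univ i)) i
      rw [hι] at h1
      exact h1)
    (N + (2 * C₀ + 1) ^ k)
    (by
      intro A' hA' hor
      rcases hor with ⟨b', hb'0, hb'j, hb'⟩ | hsm
      · refine (hrel A' hA' ⟨b', hb'0, hb'j, ?_⟩).trans (Nat.le_add_right _ _)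
        intro x hx
        have h1 := hb' x hx
        have h2 : ∑ i, b' i * b i * x i = gc b x * ∑ i, b' i * pv b x i := by
          rw [Finset.mul_sum]
          refine Finset.sum_congr rfl fun i _ => ?_
          have h3 := gc_mul (b := b) (x := x) i
          calc b' i * b i * x i = b' i * (b i * x i) := by ring
            _ = b' i * (gc b x * pv b x i) := by rw [h3]
            _ = gc b x * (b' i * pv b x i) := by ring
        rw [h2, h1, mul_zero]
      · have h1 := PCov_small (by rw [hι]; exact hk) hb A' (fun x hx => hZ x (hA' hx)) C₀ hsm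
        rw [hι] at h1
        exact h1.trans (Nat.le_add_left _ _))
  refine key.trans ?_
  have e1 : N + (2 * C₀ + 1) ^ k ≤ (1 + (2 * C₀ + 1) ^ k) * N := by
    nlinarith [Nat.zero_le ((2 * C₀ + 1) ^ k)]
  have e2 := PCov_log k Λ
  have e3 : (k + 1) * (1 + (2 * C₀ + 1) ^ k) ≤ ((k + 1) * (1 + (2 * C₀ + 1) ^ k)) ^ (S.card + 1) :=
    Nat.le_self_pow (Nat.succ_ne_zero _) _
  calc C₀ ^ (S.card + 1) * (Nat.log 2 (k * Λ) + 2) * (N + (2 * C₀ + 1) ^ k)
      ≤ C₀ ^ (S.card + 1) * ((k + 1) * (Nat.log 2 Λ + 2)) * ((1 + (2 * C₀ + 1) ^ k) * N) :=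
        Nat.mul_le_mul (Nat.mul_le_mul_left _ e2) e1
    _ = C₀ ^ (S.card + 1) * ((k + 1) * (1 + (2 * C₀ + 1) ^ k)) * ((Nat.log 2 Λ + 2) * N) := by ring
    _ ≤ C₀ ^ (S.card + 1) * ((k + 1) * (1 + (2 * C₀ + 1) ^ k)) ^ (S.card + 1) * ((Nat.log 2 Λ + 2) * N) :=
        Nat.mul_le_mul_right _ (Nat.mul_le_mul_left _ e3)
    _ = (C₀ * ((k + 1) * (1 + (2 * C₀ + 1) ^ k))) ^ (S.card + 1) * (Nat.log 2 Λ + 2) * N := by
        generalize (k + 1) * (1 + (2 * C₀ + 1) ^ k) = K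
        rw [mul_pow]
        ring

end Pool.MP_a95293_nt.TE
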