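import Pool.Agent.Lib_MP_a95293_tn.Sf
import Pool.Agent.Lib_MP_a95293_te.PDef

/-!
# Piece TN-UPRE: the primitive vector of a solution
-/

set_option autoImplicit false

namespace Pool.MP_a95293_nt.TE

open Finset Pool.MP_a95293_nt.TN

/-- the greatest common divisor of the terms -/
noncomputable def gc {ι : Type} [Fintype ι] (b x : ι → ℤ) : ℤ := univ.gcd fun i => b i * x i

/-- the primitive vector of the terms -/
noncomputable def pv {ι : Type} [Fintype ι] (b x : ι → ℤ) (i : ι) : ℤ := b i * x i / gc b x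

variable {ι : Type} [Fintype ι] [DecidableEq ι] {S : Finset ℕ} {Λ : ℕ} {b x x' : ι → ℤ}

/-- PROOF: non-negative as it is normalized (`Finset.normalize_gcd`, `Int.nonneg_iff_normalize_eq_self` or so), not zero as it divides `b i x i ≠ 0`. -/
theorem gc_pos [Nonempty ι] (hb : ∀ i, b i ≠ 0) (hx : PSol S Λ b x) : 0 < gc b x := by
  have h0 : 0 ≤ gc b x := Int.nonneg_of_normalize_eq_self Finset.normalize_gcd
  have hne : gc b x ≠ 0 := by
    intro h
    have h1 := (Finset.gcd_eq_zero_iff.1 h) (Classical.arbitrary ι) (mem_univ _)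
    exact mul_ne_zero (hb _) (hx.1 _) h1
  exact lt_of_le_of_ne h0 (Ne.symm hne)

theorem gc_mul (i : ι) : gc b x * pv b x i = b i * x i :=
  Int.mul_ediv_cancel' (Finset.gcd_dvd (mem_univ i))

/-- PROOF: if `d` divides all `pv b x i` then `gc b x * d` divides all `b i x i`, so divides `gc b x` (`Finset.dvd_gcd`). -/
theorem pv_prim [Nonempty ι] (hb : ∀ i, b i ≠ 0) (hx : PSol S Λ b x) (d : ℤ) (hd : ∀ i, d ∣ pv b x i) : IsUnit d := by
  have hg := gc_pos hb hx
  have h1 : gc b x * d ∣ gc b x := by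
    conv_rhs => rw [gc]
    refine Finset.dvd_gcd fun i _ => ?_
    rw [← gc_mul (b := b) (x := x) i]
    exact mul_dvd_mul_left _ (hd i)
  have h2 : gc b x * d ∣ gc b x * 1 := by rwa [mul_one]
  exact isUnit_of_dvd_one ((mul_dvd_mul_iff_left hg.ne').1 h2)

omit [DecidableEq ι] in
private theorem PPre_dvd (b x x' : ι → ℤ) : gc b x' ∣ gc b x * ∏ m, x' m := by
  have h1 : gc b x' ∣ univ.gcd fun i => (b i * x i) * ∏ m, x' m := by
    refine Finset.dvd_gcd fun i _ => ?_
    have h2 : gc b x' ∣ b i * x' i := Finset.gcd_dvd (mem_univ i)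
    refine h2.trans ?_
    rw [mul_assoc (b i)]
    exact mul_dvd_mul_left _ (Dvd.dvd.mul_left (Finset.dvd_prod_of_mem _ (mem_univ i)) _)
  rw [Finset.gcd_mul_right] at h1
  refine h1.trans (mul_dvd_mul_left _ ?_)
  exact (normalize_associated _).dvd

omit [DecidableEq ι] in
private theorem PPre_sf_prod (hx' : PSol S Λ b x') : sf S (∏ m, x' m).natAbs = 1 := by
  refine sf_one S ?_
  intro p hp
  have h1 : p.Prime := Nat.prime_of_mem_primeFactors hp
  have h2 : p ∣ (∏ m, x' m).natAbs := Nat.dvd_of_mem_primeFactors hp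
  have h3 : (p : ℤ) ∣ ∏ m, x' m := Int.natCast_dvd.2 h2
  obtain ⟨m, _, hm⟩ := (Prime.dvd_finsetProd_iff (Nat.prime_iff_prime_int.1 h1) _).1 h3
  exact hx'.2.2.1 m (Nat.mem_primeFactors.2 ⟨h1, Int.natCast_dvd.1 hm, Int.natAbs_ne_zero.2 (hx'.1 m)⟩)

private theorem PPre_sf_dvd [Nonempty ι] (hb : ∀ i, b i ≠ 0) (hx : PSol S Λ b x) (hx' : PSol S Λ b x') :
    sf S (gc b x').natAbs ∣ sf S (gc b x).natAbs := by
  have hD : (∏ m, x' m) ≠ 0 := Finset.prod_ne_zero_iff.2 fun m _ => hx'.1 m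
  have hg := gc_pos hb hx
  have h1 : (gc b x').natAbs ∣ (gc b x * ∏ m, x' m).natAbs := Int.natAbs_dvd_natAbs.2 (PPre_dvd b x x')
  have h2 := sf_dvd S (Int.natAbs_ne_zero.2 (mul_ne_zero hg.ne' hD)) h1
  rw [Int.natAbs_mul, sf_mul S (Int.natAbs_ne_zero.2 hg.ne') (Int.natAbs_ne_zero.2 hD), PPre_sf_prod hx', mul_one] at h2
  exact h2

private theorem PPre_pv_ne [Nonempty ι] (hb : ∀ i, b i ≠ 0) (hx : PSol S Λ b x) (i : ι) : pv b x i ≠ 0 := by
  intro h
  have h1 := gc_mul (b := b) (x := x) i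
  rw [h, mul_zero] at h1
  exact mul_ne_zero (hb i) (hx.1 i) h1.symm

private theorem PPre_sf_b [Nonempty ι] (hb : ∀ i, b i ≠ 0) (hx : PSol S Λ b x) (i : ι) :
    sf S (gc b x).natAbs * sf S (pv b x i).natAbs = sf S (b i).natAbs := by
  have h1 := gc_mul (b := b) (x := x) i
  have hg := gc_pos hb hx
  have h2 : sf S (gc b x * pv b x i).natAbs = sf S (b i * x i).natAbs := by rw [h1]
  rw [Int.natAbs_mul, Int.natAbs_mul, sf_mul S (Int.natAbs_ne_zero.2 hg.ne') (Int.natAbs_ne_zero.2 (PPre_pv_ne hb hx i)),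
    sf_mul S (Int.natAbs_ne_zero.2 (hb i)) (Int.natAbs_ne_zero.2 (hx.1 i)), sf_one S (hx.2.2.1 i), mul_one] at h2
  exact h2

/-- PROOF: `D = ∏ x' i` is an `S`-unit and `gc b x' ∣ b i x' i ∣ b i x i D` for all `i`, so `gc b x' ∣ gc b x * D`; with `sf_dvd`, `sf_mul`, `sf_one`: `sf (gc b x') ∣ sf (gc b x)`, and conversely.
So `sf |gc b x| = sf |gc b x'|`; with `sf |b i| = sf |b i x i| = sf |gc b x| * sf |pv b x i|` (cancel). -/
theorem sf_pv [Nonempty ι] (hb : ∀ i, b i ≠ 0) (hx : PSol S Λ b x) (hx' : PSol S Λ b x') (i : ι) :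
    sf S (pv b x i).natAbs = sf S (pv b x' i).natAbs := by
  have h1 := PPre_sf_b hb hx i
  have h2 := PPre_sf_b hb hx' i
  have h3 : sf S (gc b x).natAbs = sf S (gc b x').natAbs :=
    Nat.dvd_antisymm (PPre_sf_dvd hb hx' hx) (PPre_sf_dvd hb hx hx')
  rw [h3, ← h2] at h1
  exact Nat.eq_of_mul_eq_mul_left (sf_pos S _) h1

/-- PROOF: `sf_pv`, `sf_mul_prod`, `pv_prim`; the sum: `gc b x * ∑ pv b x i = ∑ b i x i = 0`. -/
theorem pv_vec [Nonempty ι] (hS : ∀ p ∈ S, p.Prime) (hb : ∀ i, b i ≠ 0) (hx : PSol S Λ b x) (hx' : PSol S Λ b x') (j : ι) :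
    Vec j S (fun i => sf S (pv b x' i).natAbs) (pv b x) (fun i p => (pv b x i).natAbs.factorization p) 1 := by
  have hne := PPre_pv_ne hb hx
  have hg := gc_pos hb hx
  have hm : ∀ i, (pv b x i).natAbs = sf S (pv b x' i).natAbs * ∏ p ∈ S, p ^ (pv b x i).natAbs.factorization p := by
    intro i
    rw [← sf_pv hb hx hx' i]
    exact sf_mul_prod hS (Int.natAbs_ne_zero.2 (hne i))
  refine ⟨hne, ?_, fun d hd => pv_prim hb hx d hd, fun i _ => hm i, ?_, ?_⟩
  · have h1 : gc b x * ∑ i, pv b x i = 0 := by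
      rw [Finset.mul_sum, ← hx.2.2.2.2.1]
      exact Finset.sum_congr rfl fun i _ => gc_mul i
    exact (mul_eq_zero.1 h1).resolve_left hg.ne'
  · rw [mul_one]
    exact hm j
  · rw [one_pow]
    exact Nat.one_le_pow _ _ (Int.natAbs_pos.2 (hne j))

/-- PROOF: `D = ∏ x' i`. `D b i x i = gc b x' * Z i` with `Z i = pv b x' i * x i * ∏_{m ≠ i} x' m` (as `b i x' i = gc b x' pv b x' i`), `|Z i| ≤ H 2^(k Λ)`. And `D b i x i = D gc b x pv b x i`. So `gc b x'` divides
`(D gc b x) pv b x i` for all `i`, hence divides `D gc b x` (`pv_prim`: the ideal of the `pv b x i` is `ℤ`; or `Finset.gcd_mul_left`), `D gc b x = gc b x' t`, `t ≠ 0`, `t pv b x i = Z i`. -/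
theorem pv_height [Nonempty ι] (hb : ∀ i, b i ≠ 0) (hx : PSol S Λ b x) (hx' : PSol S Λ b x') {H : ℕ} (hH : ∀ i, (pv b x' i).natAbs ≤ H)
    (i : ι) : (pv b x i).natAbs ≤ H * 2 ^ (Fintype.card ι * Λ) := by
  have hg := gc_pos hb hx
  have hg' := gc_pos hb hx'
  have hD : (∏ m, x' m) ≠ 0 := Finset.prod_ne_zero_iff.2 fun m _ => hx'.1 m
  obtain ⟨t, ht⟩ := PPre_dvd b x x'
  have ht0 : t ≠ 0 := by
    rintro rfl
    rw [mul_zero] at ht
    exact mul_ne_zero hg.ne' hD ht
  have h1 := gc_mul (b := b) (x := x) i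
  have h2 := gc_mul (b := b) (x := x') i
  have h3 : (∏ m, x' m) = x' i * ∏ m ∈ univ.erase i, x' m := (Finset.mul_prod_erase _ _ (mem_univ i)).symm
  have h4 : t * pv b x i = pv b x' i * x i * ∏ m ∈ univ.erase i, x' m := by
    apply mul_left_cancel₀ hg'.ne'
    calc gc b x' * (t * pv b x i) = (gc b x' * t) * pv b x i := by ring
      _ = (gc b x * pv b x i) * ∏ m, x' m := by rw [← ht]; ring
      _ = (b i * x' i) * (x i * ∏ m ∈ univ.erase i, x' m) := by rw [h1, h3]; ring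
      _ = gc b x' * (pv b x' i * x i * ∏ m ∈ univ.erase i, x' m) := by rw [← h2]; ring
  have h5 : t.natAbs * (pv b x i).natAbs = (pv b x' i).natAbs * (x i).natAbs * ∏ m ∈ univ.erase i, (x' m).natAbs := by
    have := congrArg Int.natAbs h4
    rw [Int.natAbs_mul, Int.natAbs_mul, Int.natAbs_mul] at this
    rw [this]
    congr 1
    exact map_prod Int.natAbsHom x' (univ.erase i)
  have h6 : (∏ m ∈ univ.erase i, (x' m).natAbs) ≤ (2 ^ Λ) ^ (Fintype.card ι - 1) := by
    have := Finset.prod_le_pow_card (univ.erase i) (fun m => (x' m).natAbs) (2 ^ Λ) fun m _ => hx'.2.2.2.1 m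
    rwa [Finset.card_erase_of_mem (mem_univ i), Finset.card_univ] at this
  have hk : 1 ≤ Fintype.card ι := Fintype.card_pos
  calc (pv b x i).natAbs ≤ t.natAbs * (pv b x i).natAbs := Nat.le_mul_of_pos_left _ (Int.natAbs_pos.2 ht0)
    _ = (pv b x' i).natAbs * (x i).natAbs * ∏ m ∈ univ.erase i, (x' m).natAbs := h5
    _ ≤ H * 2 ^ Λ * (2 ^ Λ) ^ (Fintype.card ι - 1) := Nat.mul_le_mul (Nat.mul_le_mul (hH i) (hx.2.2.2.1 i)) h6
    _ = H * 2 ^ (Fintype.card ι * Λ) := by
      rw [mul_assoc, ← pow_succ', Nat.sub_add_cancel hk, ← pow_mul, mul_comm Λ]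

/-- PROOF: `x i gc b x' = x' i gc b x` for all `i` (cancel `b i`), `x i`, `x m` coprime for `i ≠ m` so `gc b x ∣ gc b x'`; by symmetry they are equal (both positive), so `x = x'`. -/
theorem pv_inj (hι : 2 ≤ Fintype.card ι) (hb : ∀ i, b i ≠ 0) (hx : PSol S Λ b x) (hx' : PSol S Λ b x') (h : pv b x = pv b x') :
    x = x' := by
  have : Nonempty ι := Fintype.card_pos_iff.1 (by omega)
  have hg := gc_pos hb hx
  have hg' := gc_pos hb hx'
  have key : ∀ i, x i * gc b x' = x' i * gc b x := by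
    intro i
    have h1 := gc_mul (b := b) (x := x) i
    have h2 := gc_mul (b := b) (x := x') i
    apply mul_left_cancel₀ (hb i)
    calc b i * (x i * gc b x') = (b i * x i) * gc b x' := by ring
      _ = (gc b x * pv b x i) * gc b x' := by rw [h1]
      _ = (gc b x' * pv b x' i) * gc b x := by rw [h]; ring
      _ = (b i * x' i) * gc b x := by rw [h2]
      _ = b i * (x' i * gc b x) := by ring
  have hd : ∀ y y' : ι → ℤ, PSol S Λ b y → (∀ i, y i * gc b y' = y' i * gc b y) → gc b y ∣ gc b y' := by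
    intro y y' hy hk
    have h1 : gc b y ∣ univ.gcd fun i => y i * gc b y' := by
      refine Finset.dvd_gcd fun i _ => ?_
      rw [hk i]
      exact Dvd.intro_left _ rfl
    rw [Finset.gcd_mul_right] at h1
    have h2 : IsUnit (univ.gcd y) := hy.2.1 _ fun i => Finset.gcd_dvd (mem_univ i)
    have h3 : gc b y ∣ normalize (gc b y') := (h2.dvd_mul_left).1 h1
    exact h3.trans (normalize_associated _).dvd
  have he : gc b x = gc b x' :=
    Int.dvd_antisymm hg.le hg'.le (hd x x' hx key) (hd x' x hx' fun i => (key i).symm)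
  funext i
  have h4 := key i
  rw [← he] at h4
  exact mul_right_cancel₀ hg.ne' h4

end Pool.MP_a95293_nt.TE
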