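import Pool.Agent.Lib_MP_a95293_te.Elem
import Pool.Agent.Lib_MP_a95293_pq.Big

/-!
# All admissible tuples of height at most `exp ((log X) ^ B)`
-/

set_option autoImplicit false

namespace Pool.MP_a95293_nt.TE

open Finset Pool.MP_a95293_nt.RC Pool.MP_a95293_nt.PQ Pool.MP_a95293_nt.TN

private theorem SmallH_asy (n B : ℕ) {θ c : ℝ} (hθ : 0 < θ) (hc : 0 < c) (hc' : (n + 1 : ℝ) * (B + 1) * c ≤ θ / 4) :
    ∀ᶠ X : ℕ in Filter.atTop, ∀ w : ℕ, (w : ℝ) * Real.log (Real.log X) ≤ c * Real.log X →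
      (((2 * (⌈2 * Real.exp (Real.log (Real.log X ^ B))⌉₊ + 1) ^ w + 1) ^ n *
        (⌈2 * Real.exp (Real.log (Real.log X ^ B))⌉₊ + n + 1) ^ w : ℕ) : ℝ) ≤ (X : ℝ) ^ (θ / 2) := by
  have hlogN : Filter.Tendsto (fun n : ℕ => Real.log (n : ℝ)) Filter.atTop Filter.atTop :=
    Real.tendsto_log_atTop.comp tendsto_natCast_atTop_atTop
  have E1 : ∀ᶠ X : ℕ in Filter.atTop, max (n + 4 : ℝ) (4 * (n * Real.log 3) / θ) ≤ Real.log X := hlogN.eventually_ge_atTop _
  filter_upwards [E1, Filter.eventually_ge_atTop 1] with X hX hX1 w hw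
  have hX0 : (0 : ℝ) < X := by exact_mod_cast hX1
  set l := Real.log X with hl
  have hl1 : (n + 4 : ℝ) ≤ l := (le_max_left _ _).trans hX
  have hl2 : 4 * (n * Real.log 3) / θ ≤ l := (le_max_right _ _).trans hX
  have hn0 : (0 : ℝ) ≤ n := Nat.cast_nonneg n
  have hl0 : 0 < l := by linarith
  have hll : 0 ≤ Real.log l := Real.log_nonneg (by linarith)
  have hlB : (1 : ℝ) ≤ l ^ B := one_le_pow₀ (by linarith)
  rw [Real.exp_log (by positivity)]
  set E := ⌈2 * l ^ B⌉₊ with hE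
  have hE1 : (E : ℝ) ≤ 2 * l ^ B + 1 := (Nat.ceil_lt_add_one (by positivity)).le
  have hE2 : (E : ℝ) + n + 1 ≤ l ^ (B + 1) := by
    calc (E : ℝ) + n + 1 ≤ 2 * l ^ B + (n + 2) * 1 := by linarith
      _ ≤ 2 * l ^ B + (n + 2) * l ^ B := by
          have : (n + 2 : ℝ) * 1 ≤ (n + 2) * l ^ B := mul_le_mul_of_nonneg_left hlB (by positivity)
          linarith
      _ = (n + 4) * l ^ B := by ring
      _ ≤ l * l ^ B := mul_le_mul_of_nonneg_right hl1 (by positivity)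
      _ = l ^ (B + 1) := by ring
  have hEp : (0 : ℝ) < (E : ℝ) + n + 1 := by positivity
  have hnat : (2 * (E + 1) ^ w + 1) ^ n * (E + n + 1) ^ w ≤ 3 ^ n * (E + n + 1) ^ (w * (n + 1)) := by
    have h1 : (E + 1) ^ w ≤ (E + n + 1) ^ w := Nat.pow_le_pow_left (by omega) w
    have h2 : 1 ≤ (E + n + 1) ^ w := Nat.one_le_pow _ _ (by omega)
    have h3 : 2 * (E + 1) ^ w + 1 ≤ 3 * (E + n + 1) ^ w := by omega
    calc (2 * (E + 1) ^ w + 1) ^ n * (E + n + 1) ^ w ≤ (3 * (E + n + 1) ^ w) ^ n * (E + n + 1) ^ w :=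
          Nat.mul_le_mul_right _ (Nat.pow_le_pow_left h3 n)
      _ = 3 ^ n * (E + n + 1) ^ (w * (n + 1)) := by
          rw [mul_pow, ← pow_mul, mul_assoc, ← pow_add]
          ring_nf
  have hlog : Real.log ((E : ℝ) + n + 1) ≤ (B + 1) * Real.log l := by
    have h1 := Real.log_le_log hEp hE2
    rw [Real.log_pow] at h1
    push_cast at h1
    exact h1
  have h3n : (3 : ℝ) ^ n = Real.exp (n * Real.log 3) := by
    rw [← Real.log_pow, Real.exp_log (by positivity)]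
  calc (((2 * (E + 1) ^ w + 1) ^ n * (E + n + 1) ^ w : ℕ) : ℝ) ≤ ((3 ^ n * (E + n + 1) ^ (w * (n + 1)) : ℕ) : ℝ) := by
        exact_mod_cast hnat
    _ = (3 : ℝ) ^ n * ((E : ℝ) + n + 1) ^ (w * (n + 1)) := by push_cast; ring
    _ = Real.exp (n * Real.log 3 + (w * (n + 1)) * Real.log ((E : ℝ) + n + 1)) := by
        rw [h3n, Real.exp_add]
        congr 1
        rw [← Real.exp_log (pow_pos hEp _), Real.log_pow]
        push_cast
        ring_nf
    _ ≤ Real.exp (l * (θ / 2)) := by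
        rw [Real.exp_le_exp]
        have h1 : (n : ℝ) * Real.log 3 ≤ θ / 4 * l := by
          rw [div_le_iff₀ hθ] at hl2
          linarith
        have h2 : (w * (n + 1) : ℝ) * Real.log ((E : ℝ) + n + 1) ≤ θ / 4 * l := by
          calc (w * (n + 1) : ℝ) * Real.log ((E : ℝ) + n + 1) ≤ (w * (n + 1)) * ((B + 1) * Real.log l) :=
                mul_le_mul_of_nonneg_left hlog (by positivity)
            _ = ((n + 1) * (B + 1)) * (w * Real.log l) := by ring
            _ ≤ ((n + 1) * (B + 1)) * (c * l) := mul_le_mul_of_nonneg_left hw (by positivity)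
            _ = ((n + 1 : ℝ) * (B + 1) * c) * l := by ring
            _ ≤ θ / 4 * l := mul_le_mul_of_nonneg_right hc' hl0.le
        linarith
    _ = (X : ℝ) ^ (θ / 2) := by
        rw [Real.rpow_def_of_pos hX0]

/-- **The radicals.** -/
theorem small_rads (n B : ℕ) (hn : 2 ≤ n) : ∃ δ : ℝ, 0 < δ ∧ ∃ X₀ : ℕ, ∀ X ≥ X₀, ∀ Rs : Finset ℕ,
    (∀ R ∈ Rs, R ≤ X ∧ ∃ x : Fin n → ℤ, Adm x ∧ (∀ i, |(x i : ℝ)| ≤ Real.exp (Real.log X ^ B)) ∧ radZ (∏ i, x i) = R) →
    (Rs.card : ℝ) ≤ (X : ℝ) ^ (1 - δ) := by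
  classical
  set θ : ℝ := 1 / 2 ^ (n + 1) with hθ
  have hθ0 : 0 < θ := by positivity
  have hθ1 : θ ≤ 1 / 2 := by
    rw [hθ, pow_succ]
    have h1 : (1 : ℝ) ≤ 2 ^ n := one_le_pow₀ (by norm_num)
    rw [div_le_div_iff₀ (by positivity) (by norm_num)]
    linarith
  set c : ℝ := θ / (4 * ((n + 1) * (B + 1))) with hc
  have hc0 : 0 < c := by positivity
  have hc1 : (n + 1 : ℝ) * (B + 1) * c ≤ θ / 4 := by
    rw [hc]
    apply le_of_eq
    field_simp
  obtain ⟨X₁, hX₁⟩ := many_omega hc0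
  obtain ⟨X₂, hX₂⟩ := Filter.eventually_atTop.1 (SmallH_asy n B hθ0 hc0 hc1)
  set δ := min (θ / 2) (c / 8) / 2 with hδ
  have hm0 : 0 < min (θ / 2) (c / 8) := lt_min (by positivity) (by positivity)
  have hδ0 : 0 < δ := by positivity
  have hδa : 2 * δ ≤ θ / 2 := by
    rw [hδ]
    linarith [min_le_left (θ / 2) (c / 8)]
  have hδb : 2 * δ ≤ c / 8 := by
    rw [hδ]
    linarith [min_le_right (θ / 2) (c / 8)]
  have e1 : ∀ᶠ x : ℝ in Filter.atTop, (3 : ℝ) ≤ x ^ δ := (tendsto_rpow_atTop hδ0).eventually_ge_atTop _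
  obtain ⟨X₃, hX₃⟩ := Filter.eventually_atTop.1 (tendsto_natCast_atTop_atTop.eventually
    (e1.and (Filter.eventually_ge_atTop (3 : ℝ))))
  refine ⟨δ, hδ0, max X₁ (max X₂ X₃), fun X hX Rs hRs => ?_⟩
  have g1 : X₁ ≤ X := (le_max_left _ _).trans hX
  have g2 : X₂ ≤ X := ((le_max_left _ _).trans (le_max_right _ _)).trans hX
  obtain ⟨g3, g4⟩ := hX₃ X (((le_max_right _ _).trans (le_max_right _ _)).trans hX)
  have hX0 : (0 : ℝ) < X := by linarith
  have hX1 : (1 : ℝ) ≤ X := by linarith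
  have hl1 : 1 ≤ Real.log X := by
    rw [Real.le_log_iff_exp_le hX0]
    have := Real.exp_one_lt_d9
    linarith
  have hll : 0 ≤ Real.log (Real.log X) := Real.log_nonneg hl1
  set E := ⌈2 * Real.exp (Real.log (Real.log X ^ B))⌉₊ with hE
  have hlB : 0 < Real.log X ^ B := by positivity
  have hbound : ∀ y : ℤ, |(y : ℝ)| ≤ Real.exp (Real.log X ^ B) → y.natAbs ≤ 2 ^ E := by
    intro y hy
    apply abs_le_two_pow
    rwa [Real.exp_log hlB]
  set V := ⌊(X : ℝ) ^ (1 - θ)⌋₊ with hV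
  set R0 := Rs.filter fun R : ℕ => (R : ℝ) ≤ (X : ℝ) ^ (1 / 2 : ℝ) with hR0
  set R1 := Rs.filter fun R : ℕ => ¬ (R : ℝ) ≤ (X : ℝ) ^ (1 / 2 : ℝ) with hR1
  set R2 := R1.filter fun R => (R.primeFactors.card : ℝ) * Real.log (Real.log X) ≤ c * Real.log X with hR2
  set R3 := R1.filter fun R => ¬ (R.primeFactors.card : ℝ) * Real.log (Real.log X) ≤ c * Real.log X with hR3
  have hcard1 : Rs.card = R0.card + R1.card := by rw [hR0, hR1, card_filter_add_card_filter_not]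
  have hcard2 : R1.card = R2.card + R3.card := by rw [hR2, hR3, card_filter_add_card_filter_not]
  have hpos : ∀ R ∈ Rs, 1 ≤ R ∧ Squarefree R := by
    intro R hR
    obtain ⟨-, x, -, -, hxR⟩ := hRs R hR
    have h3 : rd (∏ i, x i).natAbs = R := hxR
    rw [← h3]
    exact ⟨rd_pos _, rd_squarefree _⟩
  -- small radicals
  have b0 : (R0.card : ℝ) ≤ (X : ℝ) ^ (1 - 2 * δ) := by
    have h1 : R0 ⊆ Icc 1 ⌊(X : ℝ) ^ (1 / 2 : ℝ)⌋₊ := by
      intro R hR
      rw [hR0, mem_filter] at hR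
      rw [mem_Icc]
      exact ⟨(hpos R hR.1).1, Nat.le_floor hR.2⟩
    have h2 : R0.card ≤ ⌊(X : ℝ) ^ (1 / 2 : ℝ)⌋₊ := by
      have := card_le_card h1
      rwa [Nat.card_Icc, Nat.add_sub_cancel] at this
    have h3 : (R0.card : ℝ) ≤ (X : ℝ) ^ (1 / 2 : ℝ) :=
      (Nat.cast_le.2 h2).trans (Nat.floor_le (by positivity))
    refine h3.trans (Real.rpow_le_rpow_of_exponent_le hX1 ?_)
    linarith
  -- many prime factors
  have b3 : (R3.card : ℝ) ≤ (X : ℝ) ^ (1 - 2 * δ) := by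
    have h1 : (R3.card : ℝ) ≤ (X : ℝ) ^ (1 - c / 8) := by
      apply hX₁ X g1
      intro R hR
      rw [hR3, mem_filter, hR1, mem_filter] at hR
      obtain ⟨⟨hR, -⟩, hom⟩ := hR
      exact ⟨(hpos R hR).1, (hRs R hR).1, (hpos R hR).2, not_le.1 hom⟩
    exact h1.trans (Real.rpow_le_rpow_of_exponent_le hX1 (by linarith))
  -- the main case
  have b2 : (R2.card : ℝ) ≤ (X : ℝ) ^ (1 - 2 * δ) := by
    set w := ⌊c * Real.log X / Real.log (Real.log X)⌋₊ with hw
    rcases hll.eq_or_lt with hll0 | hllpos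
    · -- degenerate: excluded by log log X > 0
      exfalso
      have h1 : 1 < Real.log X := by
        rw [Real.lt_log_iff_exp_lt hX0]
        have := Real.exp_one_lt_d9
        linarith
      have h2 := Real.log_pos h1
      linarith
    have hwle : (w : ℝ) * Real.log (Real.log X) ≤ c * Real.log X := by
      have h1 : (w : ℝ) ≤ c * Real.log X / Real.log (Real.log X) := Nat.floor_le (by positivity)
      rwa [le_div_iff₀ hllpos] at h1
    have hsub : R2 ⊆ ((Icc 1 V).filter fun m => m.primeFactors.card ≤ w).biUnion fun m => Rm n E w m := by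
      intro R hR
      rw [hR2, mem_filter, hR1, mem_filter, not_le] at hR
      obtain ⟨⟨hR, hbig⟩, hom⟩ := hR
      obtain ⟨hRX, x, hx, hxH, hxR⟩ := hRs R hR
      have hY1 : (1 : ℝ) ≤ (X : ℝ) ^ θ := Real.one_le_rpow hX1 hθ0.le
      obtain ⟨T, hT1, hT2, hT3⟩ := exists_T hn hx hY1 (by
        have h1 : θ * ((2 ^ n : ℕ) : ℝ) = 1 / 2 := by
          rw [hθ]
          push_cast
          rw [pow_succ]
          field_simp
        rw [hxR, ← Real.rpow_natCast, ← Real.rpow_mul hX0.le, h1]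
        exact hbig)
      set P := (∏ i, x i).natAbs.primeFactors with hP
      set K := P.filter (fun p => spt x p = T) with hK
      set K' := P.filter (fun p => ¬ spt x p = T) with hK'
      have hK'p : ∀ p ∈ K', p.Prime := fun p hp => Nat.prime_of_mem_primeFactors (mem_filter.1 hp).1
      have hRP : R.primeFactors = P := by
        rw [← hxR]
        unfold radZ
        exact Nat.primeFactors_prod fun p hp => Nat.prime_of_mem_primeFactors hp
      have hPw : P.card ≤ w := by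
        rw [hw]
        apply Nat.le_floor
        rw [le_div_iff₀ hllpos, ← hRP]
        exact hom
      have hKK : (∏ p ∈ K, p) * ∏ p ∈ K', p = R := by
        rw [← hxR]
        unfold radZ
        rw [← hP, ← filter_union_filter_not_eq (fun p => spt x p = T) P, prod_union (disjoint_filter_filter_not _ _ _)]
      rw [mem_biUnion]
      refine ⟨∏ p ∈ K', p, ?_, ?_⟩
      · rw [mem_filter, mem_Icc]
        refine ⟨⟨prod_pos fun p hp => (hK'p p hp).pos, ?_⟩, ?_⟩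
        · rw [hV]
          apply Nat.le_floor
          have h1 : ((∏ p ∈ K, p : ℕ) : ℝ) * ((∏ p ∈ K', p : ℕ) : ℝ) ≤ X := by
            rw [← Nat.cast_mul, hKK]
            exact_mod_cast hRX
          have h2 : (X : ℝ) ^ θ ≤ ((∏ p ∈ K, p : ℕ) : ℝ) := by
            rw [Nat.cast_prod]
            exact hT3.le
          rw [Real.rpow_sub hX0, Real.rpow_one, le_div_iff₀ (by positivity)]
          calc ((∏ p ∈ K', p : ℕ) : ℝ) * (X : ℝ) ^ θ ≤ ((∏ p ∈ K', p : ℕ) : ℝ) * ((∏ p ∈ K, p : ℕ) : ℝ) :=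
                mul_le_mul_of_nonneg_left h2 (Nat.cast_nonneg _)
            _ ≤ X := by rw [mul_comm]; exact h1
        · rw [Nat.primeFactors_prod hK'p]
          exact (card_filter_le _ _).trans hPw
      · rw [← hxR]
        exact rad_mem hn hx (fun i => hbound _ (hxH i)) T hT1 hT2 ((card_filter_le _ _).trans hPw)
    have h1 : R2.card ≤ V * ((2 * (E + 1) ^ w + 1) ^ n * (E + n + 1) ^ w) := by
      refine (card_le_card hsub).trans ((card_biUnion_le_card_mul _ _ _ fun m hm => rm_card n E w m (mem_filter.1 hm).2).trans ?_)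
      apply Nat.mul_le_mul_right
      refine (card_filter_le _ _).trans ?_
      rw [Nat.card_Icc, Nat.add_sub_cancel]
    have h2 := hX₂ X g2 w hwle
    have hVR : (V : ℝ) ≤ (X : ℝ) ^ (1 - θ) := Nat.floor_le (by positivity)
    calc (R2.card : ℝ) ≤ ((V * ((2 * (E + 1) ^ w + 1) ^ n * (E + n + 1) ^ w) : ℕ) : ℝ) := by exact_mod_cast h1
      _ = (V : ℝ) * (((2 * (E + 1) ^ w + 1) ^ n * (E + n + 1) ^ w : ℕ) : ℝ) := by push_cast; ring
      _ ≤ (X : ℝ) ^ (1 - θ) * (X : ℝ) ^ (θ / 2) := mul_le_mul hVR h2 (Nat.cast_nonneg _) (by positivity)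
      _ = (X : ℝ) ^ (1 - θ / 2) := by
          rw [← Real.rpow_add hX0]
          congr 1
          ring
      _ ≤ (X : ℝ) ^ (1 - 2 * δ) := Real.rpow_le_rpow_of_exponent_le hX1 (by linarith)
  calc (Rs.card : ℝ) = R0.card + (R2.card + R3.card) := by
        rw [hcard1, hcard2]
        push_cast
        rfl
    _ ≤ 3 * (X : ℝ) ^ (1 - 2 * δ) := by linarith
    _ ≤ (X : ℝ) ^ δ * (X : ℝ) ^ (1 - 2 * δ) := mul_le_mul_of_nonneg_right g3 (by positivity)
    _ = (X : ℝ) ^ (1 - δ) := by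
        rw [← Real.rpow_add hX0]
        congr 1
        ring

/-- **All admissible tuples of height at most `exp ((log X) ^ B)`.** -/
theorem smallH (n B : ℕ) (hn : 2 ≤ n) : ∃ δ : ℝ, 0 < δ ∧ ∃ X₀ : ℕ, ∀ X ≥ X₀, ∀ Z : Finset (Fin n → ℤ),
    (∀ x ∈ Z, Adm x ∧ (∀ i, |(x i : ℝ)| ≤ Real.exp (Real.log X ^ B)) ∧ radZ (∏ i, x i) ≤ X) →
    (Z.card : ℝ) ≤ (X : ℝ) ^ (1 - δ) := by
  classical
  obtain ⟨δ, hδ, X₁, hX₁⟩ := small_rads n B hn
  obtain ⟨X₂, hX₂⟩ := cntP n B hn (show 0 < δ / 2 by positivity)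
  refine ⟨δ / 2, by positivity, max X₁ (max X₂ 1), fun X hX Z hZ => ?_⟩
  have g1 : X₁ ≤ X := (le_max_left _ _).trans hX
  have g2 : X₂ ≤ X := ((le_max_left _ _).trans (le_max_right _ _)).trans hX
  have g3 : 1 ≤ X := ((le_max_right _ _).trans (le_max_right _ _)).trans hX
  have hX0 : (0 : ℝ) < X := by exact_mod_cast g3
  set ρ : (Fin n → ℤ) → ℕ := fun x => radZ (∏ i, x i) with hρ
  have hR : ((Z.image ρ).card : ℝ) ≤ (X : ℝ) ^ (1 - δ) := by
    apply hX₁ X g1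
    intro R hR
    rw [mem_image] at hR
    obtain ⟨x, hx, rfl⟩ := hR
    obtain ⟨h1, h2, h3⟩ := hZ x hx
    exact ⟨h3, x, h1, h2, rfl⟩
  have hle : Real.exp (Real.log X ^ B) ≤ Real.exp (Real.exp (Real.log X ^ B)) :=
    Real.exp_le_exp.2 ((Real.add_one_le_exp _).trans' (by linarith))
  have hone : ∀ R ∈ Z.image ρ, ((Z.filter fun x => ρ x = R).card : ℝ) ≤ (X : ℝ) ^ (δ / 2) := by
    intro R hR
    rw [mem_image] at hR
    obtain ⟨x, hx, rfl⟩ := hR
    obtain ⟨-, -, h3⟩ := hZ x hx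
    exact hX₂ X g2 (ρ x) h3 _ fun y hy => by
      rw [mem_filter] at hy
      exact ⟨(hZ y hy.1).1, fun i => ((hZ y hy.1).2.1 i).trans hle, hy.2⟩
  have hsum : (Z.card : ℝ) = ∑ R ∈ Z.image ρ, ((Z.filter fun x => ρ x = R).card : ℝ) := by
    exact_mod_cast card_eq_sum_card_image ρ Z
  rw [hsum]
  calc ∑ R ∈ Z.image ρ, ((Z.filter fun x => ρ x = R).card : ℝ) ≤ ∑ R ∈ Z.image ρ, (X : ℝ) ^ (δ / 2) := sum_le_sum hone
    _ = (Z.image ρ).card * (X : ℝ) ^ (δ / 2) := by rw [sum_const, nsmul_eq_mul]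
    _ ≤ (X : ℝ) ^ (1 - δ) * (X : ℝ) ^ (δ / 2) := mul_le_mul_of_nonneg_right hR (by positivity)
    _ = (X : ℝ) ^ (1 - δ / 2) := by
        rw [← Real.rpow_add hX0]
        congr 1
        ring

end Pool.MP_a95293_nt.TE
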